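import Pool.Agent.H34.EU.Fin

/-!
# [H34 EU INF] Bounded dilations in every cube: infinitely many patterns, and the expected order

`ut2`: `ut` together with the infinite clause, the same `n`, `P`, `B`.
-/

set_option autoImplicit false

namespace Pool.Agent.H34.EU

open Finset Filter Pool.Agent.H48.EP Pool.Agent.H34.EQ

open Classical in
/-- the infinite clause from the counts, for one progression -/
theorem inf_of_counts {k r n : ℕ} (D P : ℕ) (c : Fin n → ℕ) (ε : ℝ) (B W s₀ : ℕ)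
    (h : ∃ (d : ℝ) (X₀ : ℕ), 0 < d ∧ ∀ (χ : ℕ → Fin r) (X z : ℕ) (b : Fin k → ℤ), X₀ ≤ X → B ≤ z →
      (z : ℝ) ≤ Real.log X ^ 1 → (∀ j, |(b j : ℝ)| ≤ Real.log X ^ 1) →
      (((Fintype.piFinset (fun j : Fin k => Ioc (b j) (b j + z))).filter (fun a => ¬ ∃ I : Finset (Fin n), I.Nonempty ∧
        ∃ q : Fin r, d * min 1 (z / Real.log X) ^ D * X ≤
          Real.log X ^ (k + 1) * (cnt W s₀ χ q (fun j => (P * W * ∑ i ∈ I, c i : ℕ) * a j) X : ℝ))).card : ℝ) ≤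
            ε * (z : ℝ) ^ k) (hB : 1 ≤ B) :
    ∀ (χ : ℕ → Fin r) (z : ℕ), B ≤ z → ∀ b : Fin k → ℤ,
      (((Fintype.piFinset (fun j : Fin k => Ioc (b j) (b j + z))).filter (fun a => ¬ GdI W s₀ χ P c a)).card : ℝ) ≤
        ε * (z : ℝ) ^ k := by
  obtain ⟨d, X₀, hd, h⟩ := h
  intro χ z hz b
  obtain ⟨E, hE⟩ : ∃ E : Finset (Fin k → ℤ), E = (Fintype.piFinset (fun j : Fin k => Ioc (b j) (b j + z))).filter
      (fun a => ¬ GdI W s₀ χ P c a) := ⟨_, rfl⟩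
  rw [← hE]
  obtain ⟨C, hC⟩ : ∃ C : ℕ, C = ∑ a ∈ E, ∑ I : Finset (Fin n), ∑ q : Fin r,
    {p : ℕ | Pr W s₀ χ q p ∧ ∀ j, ∃ p' : ℕ, (p' : ℤ) = p + (P * W * ∑ i ∈ I, c i : ℕ) * a j ∧ Pr W s₀ χ q p'}.ncard := ⟨_, rfl⟩
  have hlog : Tendsto (fun X : ℕ => Real.log (X : ℝ)) atTop atTop := Real.tendsto_log_atTop.comp tendsto_natCast_atTop_atTop
  have hpow : ∀ᶠ X : ℕ in atTop, Real.log (X : ℝ) ^ (k + 1 + D) ≤ d / (C + 1) * X := by
    have h1 := (Real.isLittleO_pow_log_id_atTop (n := k + 1 + D)).bound (show (0 : ℝ) < d / (C + 1) by positivity)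
    filter_upwards [tendsto_natCast_atTop_atTop.eventually h1, hlog.eventually_ge_atTop 0] with X h2 h3
    rw [Real.norm_of_nonneg (pow_nonneg h3 _)] at h2
    rw [id, Real.norm_of_nonneg (Nat.cast_nonneg _)] at h2
    exact h2
  obtain ⟨X, hX1, hX2, hX3, hX4, hX5, hX6⟩ := (hpow.and ((hlog.eventually_ge_atTop (z : ℝ)).and
    ((hlog.eventually_ge_atTop (∑ j, |(b j : ℝ)|)).and ((eventually_ge_atTop X₀).and ((eventually_ge_atTop 1).and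
    (hlog.eventually_ge_atTop 1)))))).exists
  have hX0 : (0 : ℝ) < X := by exact_mod_cast hX5
  have hl0 : 0 < Real.log (X : ℝ) := by linarith
  have hz1 : (1 : ℝ) ≤ z := by exact_mod_cast hB.trans hz
  refine le_trans (Nat.cast_le.2 (card_le_card fun a ha => ?_)) (h χ X z b hX4 hz (by rw [pow_one]; exact hX2) (fun j => by
    rw [pow_one]
    exact (single_le_sum (f := fun j => |(b j : ℝ)|) (fun _ _ => abs_nonneg _) (mem_univ j)).trans hX3))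
  have ha' := ha
  rw [hE, mem_filter] at ha
  rw [mem_filter]
  refine ⟨ha.1, ?_⟩
  rintro ⟨I, hI, q, hq⟩
  have hfin : {p : ℕ | Pr W s₀ χ q p ∧ ∀ j, ∃ p' : ℕ, (p' : ℤ) = p + (P * W * ∑ i ∈ I, c i : ℕ) * a j ∧
      Pr W s₀ χ q p'}.Finite := by
    by_contra hinf
    exact ha.2 ⟨I, hI, q, hinf⟩
  have h1 : cnt W s₀ χ q (fun j => (P * W * ∑ i ∈ I, c i : ℕ) * a j) X ≤
      {p : ℕ | Pr W s₀ χ q p ∧ ∀ j, ∃ p' : ℕ, (p' : ℤ) = p + (P * W * ∑ i ∈ I, c i : ℕ) * a j ∧ Pr W s₀ χ q p'}.ncard := by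
    unfold cnt
    exact Set.ncard_le_ncard (fun p hp => hp.2) hfin
  have h2 : {p : ℕ | Pr W s₀ χ q p ∧ ∀ j, ∃ p' : ℕ, (p' : ℤ) = p + (P * W * ∑ i ∈ I, c i : ℕ) * a j ∧
      Pr W s₀ χ q p'}.ncard ≤ C := by
    rw [hC]
    calc _ ≤ ∑ q : Fin r, {p : ℕ | Pr W s₀ χ q p ∧ ∀ j, ∃ p' : ℕ, (p' : ℤ) = p + (P * W * ∑ i ∈ I, c i : ℕ) * a j ∧
            Pr W s₀ χ q p'}.ncard :=
          single_le_sum (f := fun q : Fin r => {p : ℕ | Pr W s₀ χ q p ∧ ∀ j, ∃ p' : ℕ,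
            (p' : ℤ) = p + (P * W * ∑ i ∈ I, c i : ℕ) * a j ∧ Pr W s₀ χ q p'}.ncard)
            (fun _ _ => Nat.zero_le _) (mem_univ q)
      _ ≤ ∑ I : Finset (Fin n), ∑ q : Fin r, {p : ℕ | Pr W s₀ χ q p ∧ ∀ j, ∃ p' : ℕ,
            (p' : ℤ) = p + (P * W * ∑ i ∈ I, c i : ℕ) * a j ∧ Pr W s₀ χ q p'}.ncard :=
          single_le_sum (f := fun I : Finset (Fin n) => ∑ q : Fin r, {p : ℕ | Pr W s₀ χ q p ∧ ∀ j, ∃ p' : ℕ,
            (p' : ℤ) = p + (P * W * ∑ i ∈ I, c i : ℕ) * a j ∧ Pr W s₀ χ q p'}.ncard)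
            (fun _ _ => Nat.zero_le _) (mem_univ I)
      _ ≤ _ := single_le_sum (f := fun a : Fin k → ℤ => ∑ I : Finset (Fin n), ∑ q : Fin r, {p : ℕ | Pr W s₀ χ q p ∧
            ∀ j, ∃ p' : ℕ, (p' : ℤ) = p + (P * W * ∑ i ∈ I, c i : ℕ) * a j ∧ Pr W s₀ χ q p'}.ncard)
            (fun _ _ => Nat.zero_le _) ha'
  have h3 : (cnt W s₀ χ q (fun j => (P * W * ∑ i ∈ I, c i : ℕ) * a j) X : ℝ) ≤ C := by exact_mod_cast h1.trans h2
  have hC0 : (0 : ℝ) ≤ C := Nat.cast_nonneg _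
  have hμ : 1 / Real.log X ≤ min 1 ((z : ℝ) / Real.log X) := by
    refine le_min ?_ (div_le_div_of_nonneg_right hz1 hl0.le)
    rw [div_le_one hl0]
    exact hX6
  have h4 : d * (1 / Real.log X) ^ D * X ≤ Real.log X ^ (k + 1) * C := by
    calc d * (1 / Real.log X) ^ D * X ≤ d * min 1 ((z : ℝ) / Real.log X) ^ D * X := by
          refine mul_le_mul_of_nonneg_right (mul_le_mul_of_nonneg_left ?_ hd.le) hX0.le
          exact pow_le_pow_left₀ (by positivity) hμ D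
      _ ≤ _ := hq
      _ ≤ Real.log X ^ (k + 1) * C := mul_le_mul_of_nonneg_left h3 (by positivity)
  have h5 : d * X ≤ Real.log X ^ (k + 1 + D) * C := by
    have h6 := mul_le_mul_of_nonneg_left h4 (by positivity : (0 : ℝ) ≤ Real.log X ^ D)
    calc d * X = Real.log X ^ D * (d * (1 / Real.log X) ^ D * X) := by
          rw [div_pow, one_pow]
          field_simp
      _ ≤ Real.log X ^ D * (Real.log X ^ (k + 1) * C) := h6
      _ = Real.log X ^ (k + 1 + D) * C := by rw [pow_add]; ring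
  have h6 : d * X ≤ d / (C + 1) * X * C := h5.trans (mul_le_mul_of_nonneg_right hX1 hC0)
  have h7 : d / ((C : ℝ) + 1) * X * C < d * X := by
    rw [div_mul_eq_mul_div, div_mul_eq_mul_div, div_lt_iff₀ (by positivity)]
    have : 0 < d * X := by positivity
    nlinarith
  linarith

open Classical in
/-- **bounded dilations in every cube**: infinitely many patterns, and the expected order at every scale -/
theorem ut2 (k r : ℕ) : ∃ D n P : ℕ, 0 < P ∧ ∀ c : Fin n → ℕ, (∀ i, 1 ≤ c i) → ∀ ε : ℝ, 0 < ε → ∃ B : ℕ, ∀ W s₀ : ℕ, 0 < W →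
    Nat.Coprime s₀ W →
    (∀ (χ : ℕ → Fin r) (z : ℕ) (b : Fin k → ℤ), B ≤ z →
      (((Fintype.piFinset (fun j : Fin k => Ioc (b j) (b j + z))).filter (fun a => ¬ GdI W s₀ χ P c a)).card : ℝ) ≤
        ε * (z : ℝ) ^ k) ∧
    ∀ A : ℕ, ∃ (d : ℝ) (X₀ : ℕ), 0 < d ∧ ∀ (χ : ℕ → Fin r) (X z : ℕ) (b : Fin k → ℤ), X₀ ≤ X → B ≤ z →
      (z : ℝ) ≤ Real.log X ^ A → (∀ j, |(b j : ℝ)| ≤ Real.log X ^ A) →
      (((Fintype.piFinset (fun j : Fin k => Ioc (b j) (b j + z))).filter (fun a => ¬ ∃ I : Finset (Fin n), I.Nonempty ∧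
        ∃ q : Fin r, d * min 1 (z / Real.log X) ^ D * X ≤
          Real.log X ^ (k + 1) * (cnt W s₀ χ q (fun j => (P * W * ∑ i ∈ I, c i : ℕ) * a j) X : ℝ))).card : ℝ) ≤
            ε * (z : ℝ) ^ k := by
  obtain ⟨D, n, P, hP, h⟩ := ut k r
  refine ⟨D, n, P, hP, fun c hc ε hε => ?_⟩
  obtain ⟨B, h⟩ := h c hc ε hε
  refine ⟨B + 1, fun W s₀ hW hs₀ => ⟨fun χ z b hz => ?_, fun A => ?_⟩⟩
  · refine inf_of_counts (B := B + 1) D P c ε W s₀ ?_ (by omega) χ z hz b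
    obtain ⟨d, X₀, hd, h1⟩ := h 1 W s₀ hW hs₀
    exact ⟨d, X₀, hd, fun χ X z b hX hz => h1 χ X z b hX (by omega)⟩
  · obtain ⟨d, X₀, hd, h1⟩ := h A W s₀ hW hs₀
    exact ⟨d, X₀, hd, fun χ X z b hX hz => h1 χ X z b hX (by omega)⟩

end Pool.Agent.H34.EU
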