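import Pool.Agent.H34.EU.Sio
import Pool.Agent.H34.EQ.Bip

/-!
# [H34 EU CNF] Many configurations of clusters, with arbitrary shifts of the clusters

`avoid_dense`: a dense family of maps contains many without coincidences; `many_conf`: as `one_conf` of H48/EP/Ban, with the number of the
configurations; `Fz`, `sum_Fz`: the patterns with sites in a given set, as `Fw`, `sum_Fw` of H48/EP/Fn1.
-/

set_option autoImplicit false

namespace Pool.Agent.H34.EU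

open Finset Filter Pool.Agent.H34.RR Pool.Agent.H61.UN Pool.Agent.H48.EP

/-- a dense family contains many maps without coincidences -/
theorem avoid_dense {P : Type} [Fintype P] [DecidableEq P] (N : ℕ) (hN0 : 0 < N) (c : ℝ)
    (hc : 2 * (Fintype.card P : ℝ) ^ 2 ≤ c * N) (U : Set (P → Fin N)) (hU : c ≤ dn U) (τ : P → ℤ) :
    c / 2 * (N : ℝ) ^ Fintype.card P ≤
      ((U ∩ {u : P → Fin N | Function.Injective (fun p => ((u p : ℕ) : ℤ) + τ p)}).ncard : ℝ) := by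
  classical
  have hNr : (0 : ℝ) < N := by exact_mod_cast hN0
  obtain ⟨J, hJ⟩ : ∃ J : Set (P → Fin N), J = {u : P → Fin N | Function.Injective (fun p => ((u p : ℕ) : ℤ) + τ p)} := ⟨_, rfl⟩
  rw [← hJ]
  have h1 : dn U ≤ dn (U ∩ J) + ∑ pq ∈ (univ : Finset (P × P)).filter (fun pq => pq.1 ≠ pq.2),
      dn {u : P → Fin N | ((u pq.1 : ℕ) : ℤ) + τ pq.1 = ((u pq.2 : ℕ) : ℤ) + τ pq.2} := by
    unfold dn
    rw [← Ex_sum, ← Ex_add]
    refine Ex_mono fun u => ?_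
    have h0 : ∀ pq ∈ (univ : Finset (P × P)).filter (fun pq => pq.1 ≠ pq.2), (0 : ℝ) ≤
        ({u : P → Fin N | ((u pq.1 : ℕ) : ℤ) + τ pq.1 = ((u pq.2 : ℕ) : ℤ) + τ pq.2}).indicator (fun _ => (1 : ℝ)) u :=
      fun pq _ => Set.indicator_nonneg (fun _ _ => zero_le_one) u
    have h00 : (0 : ℝ) ≤ (U ∩ J).indicator (fun _ => (1 : ℝ)) u := Set.indicator_nonneg (fun _ _ => zero_le_one) u
    by_cases hu : u ∈ U
    · rw [Set.indicator_of_mem hu]
      by_cases hi : u ∈ J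
      · rw [Set.indicator_of_mem (show u ∈ U ∩ J from ⟨hu, hi⟩)]
        have := sum_nonneg h0
        linarith
      · have h2 : ¬ Function.Injective (fun p => ((u p : ℕ) : ℤ) + τ p) := by
          intro h
          apply hi
          rw [hJ]
          exact h
        rw [Function.Injective] at h2
        push Not at h2
        obtain ⟨p, q, hpq, hne⟩ := h2
        have h3 := single_le_sum h0 (mem_filter.2 ⟨mem_univ (p, q), hne⟩)
        rw [Set.indicator_of_mem (show u ∈ {u : P → Fin N | ((u p : ℕ) : ℤ) + τ p = ((u q : ℕ) : ℤ) + τ q} from hpq)] at h3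
        linarith
    · rw [Set.indicator_of_notMem hu]
      have := sum_nonneg h0
      linarith
  have h2 : ∑ pq ∈ (univ : Finset (P × P)).filter (fun pq => pq.1 ≠ pq.2),
      dn {u : P → Fin N | ((u pq.1 : ℕ) : ℤ) + τ pq.1 = ((u pq.2 : ℕ) : ℤ) + τ pq.2} ≤
      ((univ : Finset (P × P)).filter (fun pq => pq.1 ≠ pq.2)).card • (1 / (N : ℝ)) :=
    sum_le_card_nsmul _ _ _ fun pq hpq => coin N hN0 pq.1 pq.2 (mem_filter.1 hpq).2 _ _
  have h3 : (((univ : Finset (P × P)).filter (fun pq => pq.1 ≠ pq.2)).card : ℝ) ≤ (Fintype.card P : ℝ) ^ 2 := by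
    have h4 : ((univ : Finset (P × P)).filter (fun pq => pq.1 ≠ pq.2)).card ≤ Fintype.card P * Fintype.card P := by
      refine (card_filter_le _ _).trans (le_of_eq ?_)
      rw [card_univ, Fintype.card_prod]
    have h5 : (((univ : Finset (P × P)).filter (fun pq => pq.1 ≠ pq.2)).card : ℝ) ≤ ((Fintype.card P * Fintype.card P : ℕ) : ℝ) := by
      exact_mod_cast h4
    refine h5.trans (le_of_eq ?_)
    push_cast
    ring
  rw [nsmul_eq_mul] at h2
  have h4 : (Fintype.card P : ℝ) ^ 2 * (1 / (N : ℝ)) ≤ c / 2 := by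
    rw [mul_one_div, div_le_iff₀ hNr]
    linarith
  have h5 : (((univ : Finset (P × P)).filter (fun pq => pq.1 ≠ pq.2)).card : ℝ) * (1 / (N : ℝ)) ≤ c / 2 :=
    (mul_le_mul_of_nonneg_right h3 (by positivity)).trans h4
  have h6 : c / 2 ≤ dn (U ∩ J) := by linarith
  have hcardX : (Fintype.card (P → Fin N) : ℝ) = (N : ℝ) ^ Fintype.card P := by
    rw [Fintype.card_fun, Fintype.card_fin]
    push_cast
    rfl
  rw [← dn_mul_card, hcardX]
  exact mul_le_mul_of_nonneg_right h6 (by positivity)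

/-- many configurations of clusters, with arbitrary shifts of the clusters -/
theorem many_conf {k : ℕ} {δ : ℝ} (S : Sys k δ) (s : ℕ) (hs : 1 ≤ s) (ε : ℝ) (hε : 0 < ε) :
    ∃ (c : ℝ) (z₀ : ℕ), 0 < c ∧ ∀ z : ℕ, z₀ ≤ z → ∀ E : Finset (Fin k → ℤ), (∀ b ∈ E, ∀ i, |b i| ≤ z) →
      ε * (z : ℝ) ^ k ≤ E.card → ∀ τ : Fin S.m → ℤ, ∃ 𝒰 : Finset (Fin S.m × Fin s → ℕ),
        (∀ u ∈ 𝒰, (∀ p, u p ≤ (2 * k * S.n + 1) * z) ∧ Function.Injective (fun p => (u p : ℤ) + τ p.1) ∧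
          ∀ (a : Fin S.L) (t : Fin (k + 1) → Fin s), ∃ b ∈ E, ∀ i : Fin k,
            (u (S.e a i.succ, t i.succ) : ℤ) - (u (S.e a 0, t 0) : ℤ) = S.μ a * b i) ∧
        c * (((2 * k * S.n + 1) * z : ℕ) : ℝ) ^ (S.m * s) ≤ 𝒰.card := by
  classical
  obtain ⟨K, hK⟩ : ∃ K, K = 2 * k * S.n + 1 := ⟨_, rfl⟩
  have hK0 : 0 < K := by omega
  have hKr : (0 : ℝ) < K := by exact_mod_cast hK0
  obtain ⟨c₁, hc₁, hrem⟩ := removal S.e S.inj S.lin S.cov (ε / (K : ℝ) ^ (k + 1)) (by positivity)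
  obtain ⟨c₂, hc₂⟩ : ∃ c₂, c₂ = c₁ ^ (s ^ S.m) := ⟨_, rfl⟩
  have hc₂0 : 0 < c₂ := by
    rw [hc₂]
    positivity
  obtain ⟨w, hw⟩ : ∃ w, w = S.m * s := ⟨_, rfl⟩
  refine ⟨c₂ / 2, ⌈2 * (w : ℝ) ^ 2 / c₂⌉₊ + 1, by positivity, ?_⟩
  intro z hz E hE hEc τ
  have hz1 : 1 ≤ z := by omega
  have hzr : (0 : ℝ) < z := by exact_mod_cast hz1
  obtain ⟨N, hN⟩ : ∃ N, N = K * z := ⟨_, rfl⟩
  have hzN : z ≤ N := by
    rw [hN]
    exact Nat.le_mul_of_pos_left z hK0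
  have hN0 : 0 < N := by omega
  have hNe : Nonempty (Fin N) := ⟨⟨0, hN0⟩⟩
  have hTr := trivial_copies S z hz1 E hE
  rw [← hK, ← hN] at hTr
  obtain ⟨T, hT1, hT2, hT3⟩ := hTr
  have h1 := hrem (Fin N) (fun a => FE (S.μ a) E) T hT1 hT2 (by
    rw [Fintype.card_fin, Fintype.card_fin, hT3, hN]
    push_cast
    rw [mul_pow, ← mul_assoc, div_mul_cancel₀ _ (by positivity), pow_succ]
    calc ε * ((z : ℝ) ^ k * z) = z * (ε * (z : ℝ) ^ k) := by ring
      _ ≤ z * E.card := mul_le_mul_of_nonneg_left hEc hzr.le)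
  have h2 := blowup (V := Fin S.m) (X := Fin N) s hs {x | ∀ a, x ∘ S.e a ∈ FE (S.μ a) E}
  rw [Fintype.card_fin] at h2
  obtain ⟨U, hU⟩ : ∃ U : Set (Fin S.m × Fin s → Fin N), U = {u : Fin S.m × Fin s → Fin N |
      ∀ t : Fin S.m → Fin s,
      (fun v => u (v, t v)) ∈ {x : Fin S.m → Fin N | ∀ a, x ∘ S.e a ∈ FE (S.μ a) E}} := ⟨_, rfl⟩
  have h3 : c₂ ≤ dn U := by
    rw [hc₂, hU]
    exact (pow_le_pow_left₀ hc₁.le h1 _).trans h2
  have hcardP : Fintype.card (Fin S.m × Fin s) = w := by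
    rw [Fintype.card_prod, Fintype.card_fin, Fintype.card_fin, hw]
  have h4 := avoid_dense (P := Fin S.m × Fin s) N hN0 c₂ (by
    rw [hcardP]
    have h5 : 2 * (w : ℝ) ^ 2 / c₂ ≤ N := by
      refine (Nat.le_ceil _).trans ?_
      have : ⌈2 * (w : ℝ) ^ 2 / c₂⌉₊ ≤ N := by omega
      exact_mod_cast this
    rw [div_le_iff₀ hc₂0] at h5
    linarith) U h3 (fun p => τ p.1)
  rw [hcardP] at h4
  have hfin : (U ∩ {u : Fin S.m × Fin s → Fin N | Function.Injective (fun p => ((u p : ℕ) : ℤ) + τ p.1)}).Finite :=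
    Set.toFinite _
  have hφ : Function.Injective (fun (u : Fin S.m × Fin s → Fin N) (p : Fin S.m × Fin s) => (u p : ℕ)) := by
    intro u u' h
    funext p
    exact Fin.ext (congrFun h p)
  refine ⟨hfin.toFinset.image (fun (u : Fin S.m × Fin s → Fin N) (p : Fin S.m × Fin s) => (u p : ℕ)), ?_, ?_⟩
  · intro v hv
    obtain ⟨u, hu, rfl⟩ := mem_image.1 hv
    rw [Set.Finite.mem_toFinset] at hu
    obtain ⟨huU, huI⟩ := hu
    rw [hU] at huU
    refine ⟨fun p => ?_, huI, fun a t => ?_⟩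
    · rw [← hK, ← hN]
      exact (u p).2.le
    · have h5 := huU (Function.extend (S.e a) t (fun _ => ⟨0, hs⟩)) a
      obtain ⟨b, hb, hb'⟩ := h5
      refine ⟨b, hb, fun i => ?_⟩
      have h6 := hb' i
      simp only [Function.comp_apply, (S.inj a).extend_apply] at h6
      exact h6
  · rw [card_image_of_injective _ hφ, ← Set.ncard_eq_toFinset_card _ hfin, ← hK, ← hN, ← hw]
    exact h4

open Classical in
/-- patterns with sites in `Z` -/
noncomputable def Fz {k r : ℕ} {δ : ℝ} (S : Sys k δ) (R W s₀ : ℕ) (χ : ℕ → Fin r) (E : Finset (Fin k → ℤ)) (Z : Finset ℕ)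
    (N : ℕ) : Finset (Fin (k + 1) → ℕ) :=
  (Fintype.piFinset (fun _ : Fin (k + 1) => Z)).filter (fun y => Function.Injective y ∧
    ∃ (a : Fin S.L) (b : Fin k → ℤ) (q : Fin r), b ∈ E ∧ (∀ i : Fin k, (y i.succ : ℤ) - (y 0 : ℤ) = R * (S.μ a * b i)) ∧
      ∀ j, Pr W s₀ χ q (N + y j))

/-- few patterns with sites in `Z` together -/
theorem sum_Fz {k r : ℕ} {δ : ℝ} (S : Sys k δ) (R W s₀ : ℕ) (χ : ℕ → Fin r) (E : Finset (Fin k → ℤ)) (Z : Finset ℕ) (X : ℕ)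
    (I : Finset ℕ) (hI : ∀ N ∈ I, ∀ y ∈ Z, N + y ≤ X) (V : ℝ) (hV : ∀ (a : Fin S.L), ∀ b ∈ E, ∀ q : Fin r,
      (cnt W s₀ χ q (fun j => ((R * S.μ a : ℕ) : ℤ) * b j) X : ℝ) ≤ V) :
    ∑ N ∈ I, ((Fz S R W s₀ χ E Z N).card : ℝ) ≤ S.L * E.card * Z.card * r * V := by
  classical
  obtain ⟨U, hU⟩ : ∃ U : Finset (Fin S.L × (Fin k → ℤ) × ℕ × Fin r), U =
    (univ : Finset (Fin S.L)) ×ˢ (E ×ˢ (Z ×ˢ (univ : Finset (Fin r)))) := ⟨_, rfl⟩
  have hUc : (U.card : ℝ) = S.L * E.card * Z.card * r := by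
    rw [hU, card_product, card_product, card_product, card_univ, card_univ, Fintype.card_fin, Fintype.card_fin]
    push_cast
    ring
  obtain ⟨Cn, hCn⟩ : ∃ Cn : Fin S.L × (Fin k → ℤ) × ℕ × Fin r → Finset ℕ, Cn = fun p => (range (X + 1)).filter (fun n =>
    Pr W s₀ χ p.2.2.2 n ∧ ∀ j, ∃ p' : ℕ, (p' : ℤ) = n + ((R * S.μ p.1 : ℕ) : ℤ) * p.2.1 j ∧ Pr W s₀ χ p.2.2.2 p') := ⟨_, rfl⟩
  have hCc : ∀ p, ((Cn p).card : ℝ) = cnt W s₀ χ p.2.2.2 (fun j => ((R * S.μ p.1 : ℕ) : ℤ) * p.2.1 j) X := by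
    intro p
    rw [hCn]
    unfold cnt
    rw [← Set.ncard_coe_finset]
    congr 2
    ext n
    simp only [coe_filter, mem_range, Set.mem_ofPred_eq, Nat.lt_succ_iff]
  have hkey : (I.sigma (fun N => Fz S R W s₀ χ E Z N)).card ≤ (U.sigma Cn).card := by
    have hch : ∀ x : (Σ _ : ℕ, (Fin (k + 1) → ℕ)), ∃ (p : Fin S.L × (Fin k → ℤ) × Fin r),
        x ∈ I.sigma (fun N => Fz S R W s₀ χ E Z N) →
        p.2.1 ∈ E ∧ (∀ i : Fin k, (x.2 i.succ : ℤ) - (x.2 0 : ℤ) = R * (S.μ p.1 * p.2.1 i)) ∧ ∀ j, Pr W s₀ χ p.2.2 (x.1 + x.2 j) := by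
      intro x
      by_cases hx : x ∈ I.sigma (fun N => Fz S R W s₀ χ E Z N)
      · have h1 := (mem_sigma.1 hx).2
        unfold Fz at h1
        rw [mem_filter] at h1
        obtain ⟨-, -, a, b, q, hb, hd, hp⟩ := h1
        exact ⟨(a, b, q), fun _ => ⟨hb, hd, hp⟩⟩
      · obtain ⟨a, -, -⟩ := S.cov ⟨0, S.hm⟩
        exact ⟨(a, 0, χ 0), fun h => absurd h hx⟩
    choose pp hpp using hch
    refine card_le_card_of_injOn (fun x => ⟨((pp x).1, (pp x).2.1, x.2 0, (pp x).2.2), x.1 + x.2 0⟩) ?_ ?_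
    · intro x hx
      have hx' : x ∈ I.sigma (fun N => Fz S R W s₀ χ E Z N) := hx
      obtain ⟨h1, h2, h3⟩ := hpp x hx'
      obtain ⟨hN, hz⟩ := mem_sigma.1 hx'
      unfold Fz at hz
      rw [mem_filter, Fintype.mem_piFinset] at hz
      obtain ⟨hz1, -, -⟩ := hz
      rw [mem_coe, mem_sigma]
      refine ⟨?_, ?_⟩
      · rw [hU]
        exact mem_product.2 ⟨mem_univ _, mem_product.2 ⟨h1, mem_product.2 ⟨hz1 0, mem_univ _⟩⟩⟩
      · rw [hCn]
        simp only [mem_filter, mem_range]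
        refine ⟨?_, h3 0, fun j => ⟨x.1 + x.2 j.succ, ?_, h3 j.succ⟩⟩
        · have := hI x.1 hN (x.2 0) (hz1 0)
          omega
        · have h4 := h2 j
          push_cast
          linarith
    · intro x hx y hy hxy
      have hx' : x ∈ I.sigma (fun N => Fz S R W s₀ χ E Z N) := hx
      have hy' : y ∈ I.sigma (fun N => Fz S R W s₀ χ E Z N) := hy
      obtain ⟨-, hx2, -⟩ := hpp x hx'
      obtain ⟨-, hy2, -⟩ := hpp y hy'
      simp only [Sigma.mk.injEq, Prod.mk.injEq, heq_eq_eq] at hxy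
      obtain ⟨⟨ha, hb, h0, -⟩, hs⟩ := hxy
      have h1 : x.1 = y.1 := by omega
      have h2 : x.2 = y.2 := by
        funext i
        refine Fin.cases h0 (fun j => ?_) i
        have h7 := hx2 j
        have h8 := hy2 j
        rw [ha, hb, h0] at h7
        have h9 : (x.2 j.succ : ℤ) = y.2 j.succ := by linarith
        exact_mod_cast h9
      obtain ⟨x1, x2⟩ := x
      obtain ⟨y1, y2⟩ := y
      simp only at h1 h2
      rw [h1, h2]
  rw [card_sigma, card_sigma] at hkey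
  have hkeyR : ∑ N ∈ I, ((Fz S R W s₀ χ E Z N).card : ℝ) ≤ ∑ p ∈ U, ((Cn p).card : ℝ) := by exact_mod_cast hkey
  refine hkeyR.trans ?_
  rw [← hUc, ← nsmul_eq_mul]
  refine sum_le_card_nsmul U _ V fun p hp => ?_
  rw [hU, mem_product, mem_product] at hp
  rw [hCc]
  exact hV p.1 p.2.1 hp.2.1 p.2.2.2

end Pool.Agent.H34.EU
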