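import Pool.Agent.H34.EU.Cnf

/-!
# [H34 EU FIN] Bounded dilations at every scale in every cube, with the expected order

`ut`: in every cube of `ℤ ^ k` within `(log X) ^ A`, of side `z` from a constant `B` (independent of the progression and of `A`) up to
`(log X) ^ A`, all tuples except `ε z ^ k` have a multiple by one of the numbers `P * W * ∑ i ∈ I, c i` for which the number of
the prime patterns of one colour up to `X` has the expected order.
-/

set_option autoImplicit false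

namespace Pool.Agent.H34.EU

open Finset Filter Pool.Agent.H34.RR Pool.Agent.H61.UN Pool.Agent.H48.EP Pool.Agent.H34.EQ

open Classical in
/-- **bounded dilations at every scale in every cube, with the expected order** -/
theorem ut (k r : ℕ) : ∃ D n P : ℕ, 0 < P ∧ ∀ c : Fin n → ℕ, (∀ i, 1 ≤ c i) → ∀ ε : ℝ, 0 < ε → ∃ B : ℕ, ∀ A W s₀ : ℕ, 0 < W →
    Nat.Coprime s₀ W → ∃ (d : ℝ) (X₀ : ℕ), 0 < d ∧ ∀ (χ : ℕ → Fin r) (X z : ℕ) (b : Fin k → ℤ), X₀ ≤ X → B ≤ z →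
      (z : ℝ) ≤ Real.log X ^ A → (∀ j, |(b j : ℝ)| ≤ Real.log X ^ A) →
      (((Fintype.piFinset (fun j : Fin k => Ioc (b j) (b j + z))).filter (fun a => ¬ ∃ I : Finset (Fin n), I.Nonempty ∧
        ∃ q : Fin r, d * min 1 (z / Real.log X) ^ D * X ≤
          Real.log X ^ (k + 1) * (cnt W s₀ χ q (fun j => (P * W * ∑ i ∈ I, c i : ℕ) * a j) X : ℝ))).card : ℝ) ≤
            ε * (z : ℝ) ^ k := by
  rcases Nat.eq_zero_or_pos r with hr | hr
  · subst hr
    exact ⟨0, 0, 1, one_pos, fun _ _ _ _ => ⟨0, fun _ _ _ _ _ => ⟨1, 0, one_pos, fun χ => (χ 0).elim0⟩⟩⟩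
  have hr0 : (0 : ℝ) < r := by exact_mod_cast hr
  obtain ⟨n, m, hm, hsys⟩ := sys_words_c k (1 / (100 * (r : ℝ))) (by positivity)
  obtain ⟨s, hs, wd, H0, hH0, hsv⟩ := sieveO m hm (k + 1)
  obtain ⟨P, hPd⟩ : ∃ P : ℕ, P = primorial wd := ⟨_, rfl⟩
  have hP : 0 < P := by rw [hPd]; exact primorial_pos wd
  refine ⟨3 * (m * s), n, P, hP, fun c hc ε hε => ?_⟩
  obtain ⟨S, hSm, hSI⟩ := hsys c hc
  subst hSm
  obtain ⟨c₁, z₀, hc₁, hconf⟩ := many_conf S s hs ε hε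
  refine ⟨z₀ + ⌈H0⌉₊ + 1, fun A W s₀ hW hs₀ => ?_⟩
  have hm0 : (0 : ℝ) < S.m := by exact_mod_cast S.hm
  obtain ⟨R, hRd⟩ : ∃ R : ℕ, R = P * W := ⟨_, rfl⟩
  have hR : 0 < R := by rw [hRd]; exact Nat.mul_pos hP hW
  have hRr : (0 : ℝ) < R := by exact_mod_cast hR
  have hRw : primorial wd ∣ R := by rw [hRd, hPd]; exact Dvd.intro _ rfl
  have hWR : W ∣ R := by rw [hRd]; exact Dvd.intro_left _ rfl
  have : NeZero W := ⟨hW.ne'⟩
  obtain ⟨ρ, hρ1, hρ2, hρ3⟩ := Nat.forall_exists_prime_gt_and_modEq R hW.ne' hs₀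
  have hρR := Nat.coprime_of_lt_prime hR.ne' hρ1 hρ2
  obtain ⟨K, hK⟩ : ∃ K : ℕ, K = 2 * k * S.n + 1 := ⟨_, rfl⟩
  have hK0 : 0 < K := by omega
  obtain ⟨C, hC⟩ : ∃ C : ℕ, C = ρ + R * (K + 2 * (k * S.n)) := ⟨_, rfl⟩
  obtain ⟨w, hw⟩ : ∃ w : ℕ, w = S.m * s := ⟨_, rfl⟩
  obtain ⟨δ, T, hδ, hT, hx⟩ := hsv (A + 1) (fun _ => 100 / (S.m : ℝ)) (fun _ => by positivity) (by
    rw [sum_const, card_univ, Fintype.card_fin, nsmul_eq_mul]
    rw [mul_div_cancel₀ _ hm0.ne']) R hR hRw (c₁ / (R : ℝ) ^ (S.m * s)) (by positivity)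
  rw [← hw] at hx hconf
  rw [← hw]
  have hT0 : 0 < T := by linarith
  obtain ⟨x₁, hx₁⟩ := eventually_atTop.1 hx
  -- thresholds
  have hlog : Tendsto (fun X : ℕ => Real.log (X : ℝ)) atTop atTop := Real.tendsto_log_atTop.comp tendsto_natCast_atTop_atTop
  have hpow : ∀ (A : ℕ) (κ : ℝ), 0 < κ → ∀ᶠ X : ℕ in atTop, Real.log (X : ℝ) ^ A ≤ κ * X := by
    intro A κ hκ
    have h1 := (Real.isLittleO_pow_log_id_atTop (n := A)).bound hκ
    filter_upwards [tendsto_natCast_atTop_atTop.eventually h1, hlog.eventually_ge_atTop 0] with X h2 h3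
    rw [Real.norm_of_nonneg (pow_nonneg h3 _)] at h2
    rw [id, Real.norm_of_nonneg (Nat.cast_nonneg _)] at h2
    exact h2
  obtain ⟨X1, hX1⟩ := eventually_atTop.1 ((hpow (A + 1) (1 / 2) (by norm_num)).and
    ((hpow (2 * w) (1 / (2 * T) ^ 2) (by positivity)).and ((hlog.eventually_ge_atTop ((C : ℝ) * 2 ^ (A + 1))).and
    ((hlog.eventually_ge_atTop 1).and ((hlog.eventually_ge_atTop (C : ℝ)).and
    (tendsto_natCast_atTop_atTop.eventually_ge_atTop ((|x₁| + 1) ^ 2)))))))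
  obtain ⟨G, hG⟩ : ∃ G : ℝ, G = (S.L : ℝ) * (2 * S.m) * r + 1 := ⟨_, rfl⟩
  have hG0 : 0 < G := by rw [hG]; positivity
  obtain ⟨d, hd⟩ : ∃ d : ℝ, d = δ / (2 * T * G) := ⟨_, rfl⟩
  have hd0 : 0 < d := by rw [hd]; positivity
  refine ⟨d, X1 + 3, hd0, fun χ X z b hXX hz hzA hbA => ?_⟩
  obtain ⟨hX2, hX3, hX4, hX5, hX6, hX7⟩ := hX1 X (by omega)
  have hX0 : (0 : ℝ) < X := by
    have : 0 < X := by omega
    exact_mod_cast this
  have hl0 : 0 < Real.log (X : ℝ) := by linarith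
  have hz1 : 1 ≤ z := by omega
  have hz0 : (0 : ℝ) < z := by exact_mod_cast hz1
  obtain ⟨L, hL⟩ : ∃ L : ℕ, L = R * (K * z) := ⟨_, rfl⟩
  have hzL' : z ≤ L := by
    rw [hL, ← Nat.mul_assoc]
    exact Nat.le_mul_of_pos_left z (Nat.mul_pos hR hK0)
  have hzL : (z : ℝ) ≤ L := by exact_mod_cast hzL'
  have hL1 : (1 : ℝ) ≤ L := by
    have : (1 : ℝ) ≤ z := by exact_mod_cast hz1
    linarith
  have hL0 : (0 : ℝ) < L := by linarith
  have hLH : H0 ≤ L := by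
    have h1 : ⌈H0⌉₊ ≤ z := by omega
    have h2 : (⌈H0⌉₊ : ℝ) ≤ z := by exact_mod_cast h1
    linarith [Nat.le_ceil H0]
  -- the scale
  obtain ⟨μ, hμ⟩ : ∃ μ : ℝ, μ = min 1 (L / Real.log X) := ⟨_, rfl⟩
  have hμ0 : 0 < μ := by rw [hμ]; exact lt_min one_pos (by positivity)
  have hμ1 : μ ≤ 1 := by rw [hμ]; exact min_le_left _ _
  have hμl : 1 / Real.log X ≤ μ := by
    rw [hμ]
    refine le_min ?_ ?_
    · rw [div_le_one hl0]
      exact hX5
    · exact div_le_div_of_nonneg_right hL1 hl0.le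
  obtain ⟨x, hxd⟩ : ∃ x : ℝ, x = (X : ℝ) * μ ^ w / (2 * T) := ⟨_, rfl⟩
  have hx0 : 0 < x := by rw [hxd]; positivity
  have hxsq : Real.sqrt X ≤ x := by
    have h1 : 2 * T * Real.log X ^ w ≤ Real.sqrt X := by
      refine Real.le_sqrt_of_sq_le ?_
      rw [mul_pow, ← pow_mul, mul_comm w 2]
      have h2 := mul_le_mul_of_nonneg_left hX3 (by positivity : (0 : ℝ) ≤ (2 * T) ^ 2)
      refine h2.trans (le_of_eq ?_)
      field_simp
    have h2 : (1 / Real.log X) ^ w ≤ μ ^ w := pow_le_pow_left₀ (by positivity) hμl w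
    have hlw : 0 < Real.log (X : ℝ) ^ w := by positivity
    rw [hxd, le_div_iff₀ (by positivity)]
    have h3 : Real.sqrt X * (2 * T) * Real.log X ^ w ≤ X := by
      have h4 := mul_le_mul_of_nonneg_left h1 (Real.sqrt_nonneg X)
      rw [Real.mul_self_sqrt hX0.le] at h4
      refine le_trans (le_of_eq ?_) h4
      ring
    calc Real.sqrt X * (2 * T) = Real.sqrt X * (2 * T) * Real.log X ^ w * (1 / Real.log X) ^ w := by
          rw [div_pow, one_pow]
          field_simp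
      _ ≤ X * (1 / Real.log X) ^ w := mul_le_mul_of_nonneg_right h3 (by positivity)
      _ ≤ X * μ ^ w := mul_le_mul_of_nonneg_left h2 hX0.le
  have hxx₁ : x₁ ≤ x := by
    refine le_trans ?_ hxsq
    have h1 : |x₁| + 1 ≤ Real.sqrt X := by
      refine Real.le_sqrt_of_sq_le ?_
      exact hX7
    linarith [le_abs_self x₁]
  have hlxX : Real.log x ≤ Real.log X := by
    refine Real.log_le_log hx0 ?_
    rw [hxd, div_le_iff₀ (by positivity)]
    have h1 : μ ^ w ≤ 1 := pow_le_one₀ hμ0.le hμ1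
    have h2 : (X : ℝ) * μ ^ w ≤ X * 1 := mul_le_mul_of_nonneg_left h1 hX0.le
    nlinarith
  have hlx : Real.log X / 2 ≤ Real.log x := by
    have h1 := Real.log_le_log (Real.sqrt_pos.2 hX0) hxsq
    rwa [Real.log_sqrt hX0.le] at h1
  have hlx0 : 0 < Real.log x := by linarith
  have hsx := hx₁ x hxx₁
  -- the bad set
  by_contra hcon
  rw [not_le] at hcon
  obtain ⟨E, hE⟩ : ∃ E : Finset (Fin k → ℤ), E = (Fintype.piFinset (fun j : Fin k => Ioc (b j) (b j + z))).filter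
      (fun a => ¬ ∃ I : Finset (Fin n), I.Nonempty ∧
        ∃ q : Fin r, d * min 1 (z / Real.log X) ^ (3 * w) * X ≤
          Real.log X ^ (k + 1) * (cnt W s₀ χ q (fun j => (P * W * ∑ i ∈ I, c i : ℕ) * a j) X : ℝ)) := ⟨_, rfl⟩
  rw [← hE] at hcon
  -- the translate
  obtain ⟨E', hE'⟩ : ∃ E' : Finset (Fin k → ℤ), E' = E.image (fun a => a - b) := ⟨_, rfl⟩
  have hEc : E'.card = E.card := by
    rw [hE']
    exact card_image_of_injective _ (fun x y h => sub_left_injective h)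
  have hEz : ∀ a ∈ E', ∀ i, |a i| ≤ z := by
    intro a ha i
    rw [hE', mem_image] at ha
    obtain ⟨a', ha', rfl⟩ := ha
    rw [hE, mem_filter, Fintype.mem_piFinset] at ha'
    have h1 := mem_Ioc.1 (ha'.1 i)
    rw [Pi.sub_apply, abs_le]
    constructor
    · have : (0 : ℤ) ≤ z := Nat.cast_nonneg _
      linarith [h1.1]
    · linarith [h1.2]
  obtain ⟨𝒰, h𝒰1, h𝒰2⟩ := hconf z (by omega) E' hEz (by rw [hEc]; exact hcon.le) (fun v => ∑ i, (S.c v i : ℤ) * b i)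
  rw [← hK] at h𝒰1 h𝒰2
  -- the bounds
  obtain ⟨β, hβ⟩ : ∃ β : ℕ, β = ⌊Real.log (X : ℝ) ^ A⌋₊ := ⟨_, rfl⟩
  have hβA : (β : ℝ) ≤ Real.log X ^ A := by rw [hβ]; exact Nat.floor_le (by positivity)
  have hzβ : z ≤ β := by
    rw [hβ]
    exact Nat.le_floor hzA
  have hβ1 : 1 ≤ β := by omega
  have hbβ : ∀ j, |b j| ≤ (β : ℤ) := by
    intro j
    have h1 : ((b j).natAbs : ℝ) ≤ Real.log X ^ A := by
      rw [Nat.cast_natAbs, Int.cast_abs]
      exact hbA j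
    have h2 : (b j).natAbs ≤ β := by
      rw [hβ]
      exact Nat.le_floor h1
    rw [Int.abs_eq_natAbs]
    exact_mod_cast h2
  obtain ⟨θ, hθ⟩ : ∃ θ : Fin S.m → ℤ, θ = fun v => ∑ i, (S.c v i : ℤ) * b i := ⟨_, rfl⟩
  have hθb : ∀ v : Fin S.m, |θ v| ≤ ((k * S.n * β : ℕ) : ℤ) := by
    intro v
    rw [hθ]
    refine (abs_sum_le_sum_abs _ _).trans ?_
    have h1 : ∀ i ∈ (univ : Finset (Fin k)), |(S.c v i : ℤ) * b i| ≤ ((S.n * β : ℕ) : ℤ) := by
      intro i _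
      rw [abs_mul, Nat.abs_cast]
      push_cast
      exact mul_le_mul (by exact_mod_cast S.cle v i) (hbβ i) (abs_nonneg _) (Nat.cast_nonneg _)
    refine (sum_le_card_nsmul _ _ _ h1).trans (le_of_eq ?_)
    rw [card_univ, Fintype.card_fin, nsmul_eq_mul]
    push_cast
    ring
  obtain ⟨Mb, hMb⟩ : ∃ Mb : ℤ, Mb = ((k * S.n * β : ℕ) : ℤ) := ⟨_, rfl⟩
  have hθM : ∀ v, 0 ≤ θ v + Mb := by
    intro v
    have h1 := abs_le.1 (hθb v)
    rw [hMb]
    linarith [h1.1]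
  obtain ⟨τ, hτd⟩ : ∃ τ : Fin S.m → ℕ, τ = fun v => ρ + R * (θ v + Mb).toNat := ⟨_, rfl⟩
  have hτz : ∀ v, (τ v : ℤ) = ρ + R * (θ v + Mb) := by
    intro v
    rw [hτd]
    push_cast
    rw [Int.toNat_of_nonneg (hθM v)]
  have hτL : ∀ v, τ v + L ≤ C * β := by
    intro v
    have h1 : (θ v + Mb).toNat ≤ 2 * (k * S.n) * β := by
      have h2 := abs_le.1 (hθb v)
      have h3 : θ v + Mb ≤ ((2 * (k * S.n) * β : ℕ) : ℤ) := by
        rw [hMb]
        have h4 : ((2 * (k * S.n) * β : ℕ) : ℤ) = ((k * S.n * β : ℕ) : ℤ) + ((k * S.n * β : ℕ) : ℤ) := by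
          push_cast
          ring
        rw [h4]
        linarith [h2.2]
      omega
    rw [hτd, hC, hL]
    calc ρ + R * (θ v + Mb).toNat + R * (K * z) ≤ ρ * β + R * (2 * (k * S.n) * β) + R * (K * β) :=
          Nat.add_le_add (Nat.add_le_add (Nat.le_mul_of_pos_right ρ hβ1) (Nat.mul_le_mul_left R h1))
            (Nat.mul_le_mul_left R (Nat.mul_le_mul_left K hzβ))
      _ = (ρ + R * (K + 2 * (k * S.n))) * β := by ring
  have hCβ : (C : ℝ) * β ≤ Real.log x ^ (A + 1) := by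
    have h1 : (Real.log X / 2) ^ (A + 1) ≤ Real.log x ^ (A + 1) := pow_le_pow_left₀ (by positivity) hlx _
    refine le_trans ?_ h1
    rw [div_pow, le_div_iff₀ (by positivity), pow_succ (Real.log (X : ℝ))]
    calc (C : ℝ) * β * 2 ^ (A + 1) = β * (C * 2 ^ (A + 1)) := by ring
      _ ≤ Real.log X ^ A * Real.log X := mul_le_mul hβA hX4 (by positivity) (by positivity)
  have hCX : (C : ℝ) * β ≤ 1 / 2 * X := by
    refine le_trans ?_ hX2
    rw [pow_succ]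
    calc (C : ℝ) * β = β * C := by ring
      _ ≤ Real.log X ^ A * Real.log X := mul_le_mul hβA hX6 (by positivity) (by positivity)
  have hτLr : ∀ v, (τ v : ℝ) + L ≤ C * β := fun v => by exact_mod_cast hτL v
  -- the configurations
  obtain ⟨𝓗, h𝓗⟩ : ∃ 𝓗 : Finset (Fin S.m × Fin s → ℕ), 𝓗 = 𝒰.image (fun u p => τ p.1 + R * u p) := ⟨_, rfl⟩
  have h𝓗c : 𝓗.card = 𝒰.card := by
    rw [h𝓗]
    refine card_image_of_injective _ fun u u' h => ?_
    funext p
    have h1 : τ p.1 + R * u p = τ p.1 + R * u' p := congrFun h p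
    exact Nat.eq_of_mul_eq_mul_left hR (Nat.add_left_cancel h1)
  have hmem : ∀ v ∈ 𝓗, ∃ u ∈ 𝒰, v = fun p => τ p.1 + R * u p := by
    intro v hv
    rw [h𝓗, mem_image] at hv
    obtain ⟨u, hu, h⟩ := hv
    exact ⟨u, hu, h.symm⟩
  have hHinj : ∀ v ∈ 𝓗, Function.Injective v := by
    intro v hv
    obtain ⟨u, hu, rfl⟩ := hmem v hv
    obtain ⟨-, hu2, -⟩ := h𝒰1 u hu
    intro p p' hpp
    apply hu2
    have h1 : ((τ p.1 + R * u p : ℕ) : ℤ) = ((τ p'.1 + R * u p' : ℕ) : ℤ) := by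
      have h2 : τ p.1 + R * u p = τ p'.1 + R * u p' := hpp
      rw [h2]
    push_cast at h1
    rw [hτz, hτz, hθ] at h1
    have hRz : (R : ℤ) ≠ 0 := by exact_mod_cast hR.ne'
    have h2 : (R : ℤ) * (u p + ∑ i, (S.c p.1 i : ℤ) * b i) = R * (u p' + ∑ i, (S.c p'.1 i : ℤ) * b i) := by
      linear_combination h1
    exact mul_left_cancel₀ hRz h2
  have hHwin : ∀ v ∈ 𝓗, ∀ p, τ p.1 ≤ v p ∧ v p ≤ τ p.1 + L := by
    intro v hv p
    obtain ⟨u, hu, rfl⟩ := hmem v hv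
    obtain ⟨hu1, -, -⟩ := h𝒰1 u hu
    refine ⟨Nat.le_add_right _ _, ?_⟩
    rw [hL]
    exact Nat.add_le_add_left (Nat.mul_le_mul_left R (hu1 p)) _
  have hHρ : ∀ v ∈ 𝓗, ∀ p, v p ≡ ρ [MOD R] := by
    intro v hv p
    obtain ⟨u, hu, rfl⟩ := hmem v hv
    rw [hτd]
    show (ρ + R * (θ p.1 + Mb).toNat + R * u p) % R = ρ % R
    rw [Nat.add_mul_mod_self_left, Nat.add_mul_mod_self_left]
  have hHcop : ∀ v ∈ 𝓗, ∀ p, Nat.Coprime (v p) R := by
    intro v hv p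
    have h4 : Nat.gcd ρ R = 1 := hρR
    show Nat.gcd (v p) R = 1
    rw [← h4]
    exact Nat.ModEq.gcd_eq (hHρ v hv p)
  have hHpt : ∀ v ∈ 𝓗, ∀ (a : Fin S.L) (t : Fin (k + 1) → Fin s), ∃ a₁ ∈ E, ∀ i : Fin k,
      (v (S.e a i.succ, t i.succ) : ℤ) - (v (S.e a 0, t 0) : ℤ) = R * (S.μ a * a₁ i) := by
    intro v hv a t
    obtain ⟨u, hu, rfl⟩ := hmem v hv
    obtain ⟨-, -, hu3⟩ := h𝒰1 u hu
    obtain ⟨b', hb', hbd⟩ := hu3 a t
    rw [hE', mem_image] at hb'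
    obtain ⟨a₁, ha₁, rfl⟩ := hb'
    refine ⟨a₁, ha₁, fun i => ?_⟩
    have h1 := hbd i
    have h2 : ∑ j, (S.c (S.e a i.succ) j : ℤ) * b j = ∑ j, (S.c (S.e a 0) j : ℤ) * b j + S.μ a * b i := by
      rw [← sub_eq_iff_eq_add', ← sum_sub_distrib, sum_eq_single i]
      · rw [S.smp, if_pos rfl]
        push_cast
        ring
      · intro j _ hj
        rw [S.smp, if_neg (Ne.symm hj), Nat.add_zero, sub_self]
      · intro hh
        exact absurd (mem_univ _) hh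
    push_cast
    rw [hτz, hτz, hθ]
    dsimp only
    rw [h2]
    rw [Pi.sub_apply] at h1
    linear_combination (R : ℤ) * h1
  -- the sieve
  obtain ⟨Z, hZ⟩ : ∃ Z : Finset ℕ, Z = (univ : Finset (Fin S.m)).biUnion (fun i => Icc (τ i) (τ i + L)) := ⟨_, rfl⟩
  have hmemZ : ∀ y, y ∈ Z ↔ ∃ i, τ i ≤ y ∧ y ≤ τ i + L := by
    intro y
    rw [hZ, mem_biUnion]
    constructor
    · rintro ⟨i, -, hi⟩
      exact ⟨i, mem_Icc.1 hi⟩
    · rintro ⟨i, hi⟩
      exact ⟨i, mem_univ _, mem_Icc.2 hi⟩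
  have hZc : (Z.card : ℝ) ≤ 2 * S.m * L := by
    have h1 : Z.card ≤ S.m * (L + 1) := by
      rw [hZ]
      refine card_biUnion_le.trans ?_
      refine (sum_le_card_nsmul _ _ (L + 1) fun i _ => ?_).trans (le_of_eq ?_)
      · rw [Nat.card_Icc]
        omega
      · rw [card_univ, Fintype.card_fin, smul_eq_mul]
    have h2 : (Z.card : ℝ) ≤ S.m * (L + 1) := by exact_mod_cast h1
    refine h2.trans ?_
    have h3 : (S.m : ℝ) * (L + 1) ≤ S.m * (2 * L) := mul_le_mul_of_nonneg_left (by linarith) hm0.le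
    linarith
  have htt : μ ≤ min 1 (L / Real.log x) := by
    rw [hμ]
    exact min_le_min le_rfl (div_le_div_of_nonneg_left hL0.le hlx0 hlxX)
  have hcount := hsx L hLH (le_trans (by linarith [hτLr ⟨0, S.hm⟩, Nat.cast_nonneg (α := ℝ) (τ ⟨0, S.hm⟩)]) hCβ) τ
    (fun i => le_trans (by linarith [hτLr i]) hCβ) 𝓗
    (fun v hv => ⟨hHinj v hv, hHwin v hv, hHcop v hv⟩) (by
      rw [h𝓗c]
      refine le_trans (le_of_eq ?_) h𝒰2
      rw [hL]
      push_cast
      rw [mul_pow (R : ℝ)]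
      field_simp) (fun N => Fz S R W s₀ χ E Z N) (by
    intro N hRN v hv hwc
    obtain ⟨q, a, t, hat⟩ := pick hr S χ N v hwc
    obtain ⟨b', hb', hbd⟩ := hHpt v hv a t
    refine ⟨fun j => v (S.e a j, t j), ?_, fun j => ⟨_, rfl⟩⟩
    unfold Fz
    rw [mem_filter, Fintype.mem_piFinset]
    refine ⟨fun j => (hmemZ _).2 ⟨_, hHwin v hv _⟩, ?_, a, b', q, hb', hbd, fun j => ⟨(hat j).1, (hat j).2, ?_⟩⟩
    · intro i j hij
      have h1 := hHinj v hv hij
      exact S.inj a (congrArg Prod.fst h1)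
    · have h4 : N ≡ 0 [MOD W] := Nat.modEq_zero_iff_dvd.2 (hWR.trans hRN)
      have h6 := h4.add ((hHρ v hv (S.e a j, t j)).of_dvd hWR)
      rw [Nat.zero_add] at h6
      exact h6.trans hρ3) (by
    intro N y hy
    unfold Fz at hy
    rw [mem_filter, Fintype.mem_piFinset] at hy
    obtain ⟨h1, h2, a, b', q, -, -, h3⟩ := hy
    exact ⟨h2, fun j => ⟨(hmemZ _).1 (h1 j), (h3 j).1⟩⟩) ((X : ℝ) / 2) (by
    have h1 : μ ^ w ≤ min 1 (L / Real.log x) ^ w := pow_le_pow_left₀ hμ0.le htt w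
    calc T * x = μ ^ w * (X / 2) := by
          rw [hxd]
          field_simp
      _ ≤ min 1 (L / Real.log x) ^ w * (X / 2) := mul_le_mul_of_nonneg_right h1 (by positivity))
  -- upper bound
  obtain ⟨ν, hν⟩ : ∃ ν : ℝ, ν = (min 1 ((z : ℝ) / Real.log X)) ^ (3 * w) := ⟨_, rfl⟩
  have hν0 : 0 ≤ ν := by
    rw [hν]
    exact pow_nonneg (le_min zero_le_one (by positivity)) _
  have hνμ : ν ≤ μ ^ (3 * w) := by
    rw [hν, hμ]
    refine pow_le_pow_left₀ (le_min zero_le_one (by positivity)) (min_le_min le_rfl ?_) _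
    exact div_le_div_of_nonneg_right hzL hl0.le
  have hub := sum_Fz S R W s₀ χ E Z X (range (⌊(X : ℝ) / 2⌋₊ + 1)) (by
    intro N hN y hy
    rw [mem_range, Nat.lt_succ_iff] at hN
    have h1 : (N : ℝ) ≤ (X : ℝ) / 2 := (Nat.le_floor_iff (by positivity)).1 hN
    obtain ⟨i, -, hi⟩ := (hmemZ y).1 hy
    have h2 : (y : ℝ) ≤ τ i + L := by exact_mod_cast hi
    have h3 := hτLr i
    have h4 : ((N + y : ℕ) : ℝ) ≤ X := by
      push_cast
      linarith
    exact_mod_cast h4) (d * ν * X / Real.log X ^ (k + 1)) (by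
    intro a b' hb' q
    rw [hE, mem_filter] at hb'
    have h1 := hb'.2
    push Not at h1
    obtain ⟨I, hI, hIμ⟩ := hSI a
    have h2 := h1 I hI q
    rw [← hν, ← hIμ, ← hRd] at h2
    rw [le_div_iff₀ (by positivity), mul_comm]
    exact h2.le)
  have hEc2 : (E.card : ℝ) ≤ (z : ℝ) ^ k := by
    have h1 : E.card ≤ z ^ k := by
      rw [hE]
      refine (card_filter_le _ _).trans (le_of_eq ?_)
      rw [Fintype.card_piFinset]
      have h2 : ∀ j ∈ (univ : Finset (Fin k)), (Ioc (b j) (b j + z)).card = z := by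
        intro j _
        rw [Int.card_Ioc]
        omega
      rw [prod_congr rfl h2, prod_const, card_univ, Fintype.card_fin]
    exact_mod_cast h1
  -- comparison
  have hlow : δ * μ ^ (2 * w) * (L / Real.log X) ^ (k + 1) * x ≤
      δ * (min 1 (L / Real.log x)) ^ (2 * w) * (L / Real.log x) ^ (k + 1) * x := by
    refine mul_le_mul_of_nonneg_right ?_ hx0.le
    refine mul_le_mul (mul_le_mul_of_nonneg_left (pow_le_pow_left₀ hμ0.le htt _) hδ.le) ?_ (by positivity) ?_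
    · exact pow_le_pow_left₀ (by positivity) (div_le_div_of_nonneg_left (Nat.cast_nonneg _) hlx0 hlxX) _
    · exact mul_nonneg hδ.le (pow_nonneg (hμ0.le.trans htt) _)
  have hfin : δ * μ ^ (2 * w) * (L / Real.log X) ^ (k + 1) * x ≤
      S.L * E.card * Z.card * r * (d * ν * X / Real.log X ^ (k + 1)) := hlow.trans (hcount.trans hub)
  have hup : (S.L : ℝ) * E.card * Z.card * r * (d * ν * X / Real.log X ^ (k + 1)) ≤
      S.L * (z : ℝ) ^ k * (2 * S.m * L) * r * (d * μ ^ (3 * w) * X / Real.log X ^ (k + 1)) := by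
    refine mul_le_mul ?_ ?_ (by positivity) (by positivity)
    · refine mul_le_mul_of_nonneg_right ?_ hr0.le
      refine mul_le_mul ?_ hZc (Nat.cast_nonneg _) (by positivity)
      exact mul_le_mul_of_nonneg_left hEc2 (Nat.cast_nonneg _)
    · refine div_le_div_of_nonneg_right ?_ (by positivity)
      exact mul_le_mul_of_nonneg_right (mul_le_mul_of_nonneg_left hνμ hd0.le) hX0.le
  have hfin2 := hfin.trans hup
  have e1 : δ * μ ^ (2 * w) * (L / Real.log X) ^ (k + 1) * x =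
      (δ / (2 * T)) * ((μ ^ (3 * w) * X * L / Real.log X ^ (k + 1)) * L ^ k) := by
    have h1 : μ ^ (3 * w) = μ ^ (2 * w) * μ ^ w := by
      rw [← pow_add]
      congr 1
      ring
    rw [hxd, div_pow, pow_succ (L : ℝ) k, h1]
    field_simp
  have e2 : (S.L : ℝ) * (z : ℝ) ^ k * (2 * S.m * L) * r * (d * μ ^ (3 * w) * X / Real.log X ^ (k + 1)) =
      d * (S.L * (2 * S.m) * r) * ((μ ^ (3 * w) * X * L / Real.log X ^ (k + 1)) * z ^ k) := by
    ring
  rw [e1, e2] at hfin2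
  have hY : 0 < μ ^ (3 * w) * X * L / Real.log X ^ (k + 1) := by positivity
  have hzk : (z : ℝ) ^ k ≤ (L : ℝ) ^ k := pow_le_pow_left₀ hz0.le hzL k
  have hzk0 : (0 : ℝ) < (z : ℝ) ^ k := by positivity
  have h7 : (δ / (2 * T)) * ((μ ^ (3 * w) * X * L / Real.log X ^ (k + 1)) * z ^ k) ≤
      d * (S.L * (2 * S.m) * r) * ((μ ^ (3 * w) * X * L / Real.log X ^ (k + 1)) * z ^ k) := by
    refine le_trans ?_ hfin2
    refine mul_le_mul_of_nonneg_left ?_ (by positivity)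
    exact mul_le_mul_of_nonneg_left hzk hY.le
  have h8 : δ / (2 * T) ≤ d * (S.L * (2 * S.m) * r) := le_of_mul_le_mul_right h7 (by positivity)
  have h9 : δ / (2 * T) = d * G := by
    rw [hd]
    field_simp
  rw [h9, hG] at h8
  nlinarith

end Pool.Agent.H34.EU
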