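import Pool.Agent.H62.EX.Ob2
import Pool.Agent.H62.EX.Mom
import Pool.Agent.H34.EQ.Sv

/-!
# [H34 EU MOM] Moments of the number of rough sites in translated windows

`momY`: power moments of `RS` over the initial segments; `SU`: the rough sites in the union of the windows `[τ i, τ i + L]`;
`momU`: their moments against the Gaussian weight, with the tail.
-/

set_option autoImplicit false

namespace Pool.Agent.H34.EU

open Finset Filter Pool.Agent.H21.MT Pool.Agent.H92.MM Pool.Agent.H61.UN Pool.Agent.H62.AU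

/-- powers against falling factorials -/
private theorem pow_le_desc (R n : ℕ) : R ^ n ≤ 2 ^ n * R.descFactorial n + (2 * n) ^ n := by
  rcases Nat.lt_or_ge R (2 * n) with h | h
  · exact (Nat.pow_le_pow_left h.le n).trans (Nat.le_add_left _ _)
  · refine le_trans ?_ (Nat.le_add_right _ _)
    have h1 : R ^ n = ∏ _i ∈ range n, R := by rw [prod_const, card_range]
    have h2 : 2 ^ n * R.descFactorial n = ∏ i ∈ range n, (2 * (R - i)) := by
      rw [Nat.descFactorial_eq_prod_range, prod_mul_distrib, prod_const, card_range]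
    rw [h1, h2]
    refine prod_le_prod (fun _ _ => Nat.zero_le _) (fun i hi => ?_)
    have := mem_range.1 hi
    omega

/-- the falling factorial is at most the number of the injective families -/
private theorem desc_le_RJ (n : ℕ) (x a : ℝ) (L N : ℕ) :
    ((RS x a L N).card).descFactorial n ≤ (RJ (Fin n) x a L N).card := by
  classical
  have h1 : Fintype.card (Fin n ↪ {y // y ∈ RS x a L N}) = ((RS x a L N).card).descFactorial n := by
    rw [Fintype.card_embedding_eq, Fintype.card_coe, Fintype.card_fin]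
  rw [← h1, ← Finset.card_univ]
  refine card_le_card_of_injOn (fun e i => ((e i : {y // y ∈ RS x a L N}) : ℕ)) ?_ ?_
  · intro e _
    have h2 : ∀ i, ((e i : {y // y ∈ RS x a L N}) : ℕ) ≤ L ∧ Rgh (x ^ a) (N + ((e i : {y // y ∈ RS x a L N}) : ℕ)) :=
      fun i => mem_RS.1 (e i).2
    rw [mem_coe]
    rw [mem_RJ]
    refine ⟨⟨fun i => (h2 i).1, fun i j hij => e.injective (Subtype.ext hij)⟩, fun i => (h2 i).2⟩
  · intro e _ e' _ h
    refine Function.Embedding.ext (fun i => Subtype.ext ?_)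
    exact congrFun h i

open Classical in
/-- the moments over the initial segments -/
theorem momY (n : ℕ) (a : ℝ) (ha : 0 < a) : ∃ C H0 : ℝ, 0 < C ∧ 1 ≤ H0 ∧ ∀ᶠ x : ℝ in atTop, ∀ L : ℕ, H0 ≤ L →
    ∀ Y : ℕ, Real.sqrt x ≤ (Y : ℝ) →
      ∑ N ∈ Ioc 0 Y, ((RS x a L N).card : ℝ) ^ n ≤ C * (1 + L / Real.log x) ^ n * Y := by
  rcases Nat.eq_zero_or_pos n with h0 | hn
  · subst h0
    refine ⟨1, 1, one_pos, le_rfl, ?_⟩
    filter_upwards with x L _ Y _
    simp only [pow_zero, mul_one, one_mul]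
    rw [sum_const, Nat.card_Ioc, nsmul_eq_mul, mul_one, Nat.sub_zero]
  have hne : Nonempty (Fin n) := ⟨⟨0, hn⟩⟩
  obtain ⟨C1, hC1, h1⟩ := rough_count (Fin n) a ha
  obtain ⟨C2, κ, hC2, h2⟩ := Pool.Agent.H79.AU.mean_boxU (Fin n) (2 * Fintype.card (Fin n))
  rw [Fintype.card_fin] at h1 h2
  obtain ⟨H1, hH1⟩ : ∃ H1 : ℝ, ∀ y : ℝ, H1 ≤ y → Real.log y ^ κ ≤ y := by
    have h1 := (Real.isLittleO_pow_log_id_atTop (n := κ)).bound (c := 1) one_pos
    obtain ⟨H1, h2⟩ := eventually_atTop.1 (h1.and (eventually_ge_atTop (0 : ℝ)))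
    refine ⟨H1, fun y hy => ?_⟩
    obtain ⟨h3, h4⟩ := h2 y hy
    rw [one_mul, Real.norm_eq_abs, Real.norm_eq_abs, id, abs_of_nonneg h4] at h3
    exact (le_abs_self _).trans h3
  refine ⟨2 ^ n * (C1 * C2 * 2 ^ n) + (2 * n) ^ n, max H1 3, by positivity,
    (by norm_num : (1 : ℝ) ≤ 3).trans (le_max_right _ _), ?_⟩
  filter_upwards [h1, eventually_ge_atTop (4 : ℝ)] with x hx hx4 L hL Y hY
  have hL1 : H1 ≤ (L : ℝ) := (le_max_left _ _).trans hL
  have hL3 : (3 : ℝ) ≤ (L : ℝ) := (le_max_right _ _).trans hL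
  have hx0 : 0 < x := by linarith
  have hlog : 0 < Real.log x := Real.log_pos (by linarith)
  have hY0 : (0 : ℝ) ≤ Y := Nat.cast_nonneg Y
  have e1 : ∑ N ∈ Ioc 0 Y, ((RJ (Fin n) x a L N).card : ℝ) =
      ∑ h ∈ IJ (Fin n) L, (((Ioc 0 Y).filter (fun N => ∀ i, Rgh (x ^ a) (N + h i))).card : ℝ) := by
    have e2 : ∀ N ∈ Ioc 0 Y, ((RJ (Fin n) x a L N).card : ℝ) =
        ∑ h ∈ IJ (Fin n) L, if (∀ i, Rgh (x ^ a) (N + h i)) then (1 : ℝ) else 0 := by
      intro N _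
      unfold RJ
      rw [sum_boole]
      congr
    rw [sum_congr rfl e2, sum_comm]
    refine sum_congr rfl (fun h _ => ?_)
    rw [sum_boole]
  have e3 : ∑ N ∈ Ioc 0 Y, ((RJ (Fin n) x a L N).card : ℝ) ≤ C1 * C2 * 2 ^ n * (1 + L / Real.log x) ^ n * Y := by
    rw [e1]
    have h3 : ∀ h ∈ IJ (Fin n) L, (((Ioc 0 Y).filter (fun N => ∀ i, Rgh (x ^ a) (N + h i))).card : ℝ) ≤
        C1 * Y / Real.log x ^ n * gf (dd h) ^ (2 * n) := by
      intro h hh
      have h5 := hx h (mem_IJ.1 hh).2 Y hY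
      have h6 : C1 * Y * gf (dd h) ^ (2 * n) / Real.log x ^ n = C1 * Y / Real.log x ^ n * gf (dd h) ^ (2 * n) := by ring
      rw [h6] at h5
      refine le_trans (le_of_eq ?_) h5
      congr
    refine (sum_le_sum h3).trans ?_
    rw [← mul_sum]
    have h4 : ∑ h ∈ IJ (Fin n) L, gf (dd h) ^ (2 * n) ≤ C2 * ((L : ℝ) + 1) ^ n := by
      have h5 := h2 L L hL3 (hH1 _ hL1) (fun _ => Icc 0 L)
        (fun j => ⟨0, L, by rw [zero_add], by push_cast; linarith, by rw [zero_add]⟩)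
      have h6 : ∏ _k : Fin n, (((Icc 0 L).card : ℕ) : ℝ) = ((L : ℝ) + 1) ^ n := by
        rw [prod_const, card_univ, Fintype.card_fin, Nat.card_Icc, Nat.sub_zero]
        push_cast
        rfl
      rw [h6] at h5
      refine le_trans (le_of_eq (sum_congr ?_ (fun _ _ => rfl))) h5
      ext h
      rw [mem_IJ, mem_filter, Fintype.mem_piFinset]
      simp only [mem_Icc, Nat.zero_le, true_and]
    have h7 : ((L : ℝ) + 1) ^ n / Real.log x ^ n ≤ 2 ^ n * (1 + L / Real.log x) ^ n := by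
      rw [← div_pow, ← mul_pow]
      refine pow_le_pow_left₀ (by positivity) ?_ n
      have h8 : ((L : ℝ) + 1) / Real.log x ≤ (2 * L) / Real.log x :=
        div_le_div_of_nonneg_right (by linarith) hlog.le
      have h9 : (2 * (L : ℝ)) / Real.log x = 2 * (L / Real.log x) := by ring
      rw [h9] at h8
      linarith
    calc C1 * Y / Real.log x ^ n * ∑ h ∈ IJ (Fin n) L, gf (dd h) ^ (2 * n)
        ≤ C1 * Y / Real.log x ^ n * (C2 * ((L : ℝ) + 1) ^ n) := mul_le_mul_of_nonneg_left h4 (by positivity)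
      _ = C1 * C2 * Y * (((L : ℝ) + 1) ^ n / Real.log x ^ n) := by ring
      _ ≤ C1 * C2 * Y * (2 ^ n * (1 + L / Real.log x) ^ n) := mul_le_mul_of_nonneg_left h7 (by positivity)
      _ = C1 * C2 * 2 ^ n * (1 + L / Real.log x) ^ n * Y := by ring
  have hg : ∀ N ∈ Ioc 0 Y, ((RS x a L N).card : ℝ) ^ n ≤
      2 ^ n * ((RJ (Fin n) x a L N).card : ℝ) + (2 * n) ^ n := by
    intro N _
    have h4 := (pow_le_desc (RS x a L N).card n).trans
      (Nat.add_le_add_right (Nat.mul_le_mul_left _ (desc_le_RJ n x a L N)) _)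
    exact_mod_cast h4
  refine (sum_le_sum hg).trans ?_
  rw [sum_add_distrib, ← mul_sum, sum_const, Nat.card_Ioc, Nat.sub_zero, nsmul_eq_mul]
  have hr0 : 0 ≤ (L : ℝ) / Real.log x := div_nonneg (by linarith) hlog.le
  have h14 : (1 : ℝ) ≤ (1 + L / Real.log x) ^ n := one_le_pow₀ (by linarith)
  have h15 : (Y : ℝ) * (2 * (n : ℝ)) ^ n ≤ (2 * n) ^ n * (1 + L / Real.log x) ^ n * Y := by
    calc (Y : ℝ) * (2 * (n : ℝ)) ^ n = (2 * n) ^ n * 1 * Y := by ring
      _ ≤ (2 * n) ^ n * (1 + L / Real.log x) ^ n * Y := by gcongr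
  have h16 := mul_le_mul_of_nonneg_left e3 (by positivity : (0 : ℝ) ≤ 2 ^ n)
  refine (add_le_add h16 h15).trans (le_of_eq ?_)
  ring

open Classical in
/-- the rough sites in the union of the windows -/
noncomputable def SU {m : ℕ} (x a : ℝ) (L : ℕ) (τ : Fin m → ℕ) (N : ℕ) : Finset ℕ :=
  (univ : Finset (Fin m)).biUnion (fun i => (Icc (τ i) (τ i + L)).filter (fun y => Rgh (x ^ a) (N + y)))

theorem mem_SU {m : ℕ} {x a : ℝ} {L : ℕ} {τ : Fin m → ℕ} {N y : ℕ} :
    y ∈ SU x a L τ N ↔ ∃ i, τ i ≤ y ∧ y ≤ τ i + L ∧ Rgh (x ^ a) (N + y) := by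
  classical
  unfold SU
  rw [mem_biUnion]
  constructor
  · rintro ⟨i, -, hi⟩
    rw [mem_filter, mem_Icc] at hi
    exact ⟨i, hi.1.1, hi.1.2, hi.2⟩
  · rintro ⟨i, h1, h2, h3⟩
    exact ⟨i, mem_univ _, mem_filter.2 ⟨mem_Icc.2 ⟨h1, h2⟩, h3⟩⟩

/-- the union against the single windows -/
theorem card_SU {m : ℕ} (hm : 1 ≤ m) (n : ℕ) (x a : ℝ) (L : ℕ) (τ : Fin m → ℕ) (N : ℕ) :
    ((SU x a L τ N).card : ℝ) ^ n ≤ (m : ℝ) ^ n * ∑ i, ((RS x a L (N + τ i)).card : ℝ) ^ n := by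
  classical
  have h1 : (SU x a L τ N).card ≤ ∑ i, (RS x a L (N + τ i)).card := by
    unfold SU
    refine card_biUnion_le.trans (sum_le_sum fun i _ => ?_)
    refine card_le_card_of_injOn (fun y => y - τ i) ?_ ?_
    · intro y hy
      rw [mem_coe, mem_filter, mem_Icc] at hy
      rw [mem_coe, mem_RS]
      have h4 := hy.1.1
      have h5 := hy.1.2
      refine ⟨?_, ?_⟩
      · show y - τ i ≤ L
        omega
      · show Rgh (x ^ a) (N + τ i + (y - τ i))
        have h2 : N + τ i + (y - τ i) = N + y := by omega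
        rw [h2]
        exact hy.2
    · intro y hy y' hy' h
      rw [mem_coe, mem_filter, mem_Icc] at hy hy'
      have h3 : y - τ i = y' - τ i := h
      have h4 := hy.1.1
      have h5 := hy'.1.1
      omega
  obtain ⟨i0, -, hi0⟩ := exists_max_image (univ : Finset (Fin m)) (fun i => (RS x a L (N + τ i)).card) ⟨⟨0, hm⟩, mem_univ _⟩
  have h2 : (SU x a L τ N).card ≤ m * (RS x a L (N + τ i0)).card := by
    refine h1.trans ((sum_le_card_nsmul _ _ _ hi0).trans (le_of_eq ?_))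
    rw [card_univ, Fintype.card_fin, smul_eq_mul]
  have h3 : ((SU x a L τ N).card : ℝ) ≤ m * ((RS x a L (N + τ i0)).card : ℝ) := by exact_mod_cast h2
  calc ((SU x a L τ N).card : ℝ) ^ n ≤ (m * ((RS x a L (N + τ i0)).card : ℝ)) ^ n :=
        pow_le_pow_left₀ (Nat.cast_nonneg _) h3 n
    _ = (m : ℝ) ^ n * ((RS x a L (N + τ i0)).card : ℝ) ^ n := mul_pow _ _ _
    _ ≤ (m : ℝ) ^ n * ∑ i, ((RS x a L (N + τ i)).card : ℝ) ^ n := by
        refine mul_le_mul_of_nonneg_left ?_ (by positivity)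
        exact single_le_sum (f := fun i => ((RS x a L (N + τ i)).card : ℝ) ^ n) (fun _ _ => by positivity) (mem_univ i0)

/-- a translate of an initial segment -/
theorem sum_translate (f : ℕ → ℝ) (hf : ∀ N, 0 ≤ f N) (τ Y : ℕ) :
    ∑ N ∈ Ioc 0 Y, f (N + τ) ≤ ∑ N ∈ Ioc 0 (Y + τ), f N := by
  classical
  have h1 : ∑ N ∈ Ioc 0 Y, f (N + τ) = ∑ N ∈ (Ioc 0 Y).image (fun N => N + τ), f N := by
    rw [sum_image]
    intro N _ N' _ h
    have h3 : N + τ = N' + τ := h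
    omega
  rw [h1]
  refine sum_le_sum_of_subset_of_nonneg ?_ (fun _ _ _ => hf _)
  intro N hN
  rw [mem_image] at hN
  obtain ⟨N', hN', rfl⟩ := hN
  rw [mem_Ioc] at hN' ⊢
  omega

open Classical in
/-- **moments of the union of the windows** -/
theorem momU (m n : ℕ) (hm : 1 ≤ m) (a : ℝ) (ha : 0 < a) : ∃ C H0 : ℝ, 0 < C ∧ 1 ≤ H0 ∧ ∀ A : ℕ, ∀ᶠ x : ℝ in atTop,
    ∀ L : ℕ, H0 ≤ L → ∀ τ : Fin m → ℕ, (∀ i, (τ i : ℝ) ≤ Real.log x ^ A) →
      (∑ N ∈ Tx x, gw x N * ((SU x a L τ N).card : ℝ) ^ n ≤ C * (1 + L / Real.log x) ^ n * x) ∧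
      ∀ U : ℝ, 1 ≤ U → ∑ N ∈ (Tx x).filter (fun N : ℕ => U * x < (N : ℝ)), gw x N * ((SU x a L τ N).card : ℝ) ^ n ≤
        C * (1 + L / Real.log x) ^ n * x / U := by
  obtain ⟨C, H0, hC, hH0, hmom⟩ := momY n a ha
  obtain ⟨G, hG⟩ : ∃ G : ℝ, G = 4 * Real.exp (9 / 2) + 1 := ⟨_, rfl⟩
  have hG0 : 0 < G := by rw [hG]; positivity
  have hm0 : (0 : ℝ) < m := by exact_mod_cast hm
  refine ⟨G * ((m : ℝ) ^ n * (m * (2 * C))), H0, by positivity, hH0, fun A => ?_⟩
  have hpow : ∀ᶠ x : ℝ in atTop, Real.log x ^ (2 * A) ≤ x := by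
    have h1 := (Real.isLittleO_pow_log_id_atTop (n := 2 * A)).bound (show (0 : ℝ) < 1 by norm_num)
    filter_upwards [h1, eventually_ge_atTop (1 : ℝ)] with x h2 h3
    rw [Real.norm_of_nonneg (pow_nonneg (Real.log_nonneg h3) _), id, Real.norm_of_nonneg (by linarith), one_mul] at h2
    exact h2
  filter_upwards [hmom, hpow, eventually_ge_atTop (4 : ℝ)] with x hmom hpow hx4 L hL τ hτ
  have hx0 : 0 < x := by linarith
  have hlog : 0 < Real.log x := Real.log_pos (by linarith)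
  have hmom := hmom L hL
  have hr0 : 0 ≤ (L : ℝ) / Real.log x := div_nonneg (Nat.cast_nonneg _) hlog.le
  have hτx : ∀ i, (τ i : ℝ) ≤ Real.sqrt x := by
    intro i
    refine (hτ i).trans (Real.le_sqrt_of_sq_le ?_)
    rw [← pow_mul, mul_comm A 2]
    exact hpow
  obtain ⟨A0, hA0⟩ : ∃ A0 : ℝ, A0 = (m : ℝ) ^ n * (m * (2 * C)) * (1 + L / Real.log x) ^ n := ⟨_, rfl⟩
  have hA00 : 0 ≤ A0 := by rw [hA0]; positivity
  have hY : ∀ Y : ℕ, Real.sqrt x ≤ (Y : ℝ) → ∑ N ∈ Ioc 0 Y, ((SU x a L τ N).card : ℝ) ^ n ≤ A0 * Y := by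
    intro Y hYx
    calc ∑ N ∈ Ioc 0 Y, ((SU x a L τ N).card : ℝ) ^ n
        ≤ ∑ N ∈ Ioc 0 Y, (m : ℝ) ^ n * ∑ i, ((RS x a L (N + τ i)).card : ℝ) ^ n :=
          sum_le_sum fun N _ => card_SU hm n x a L τ N
      _ = (m : ℝ) ^ n * ∑ i, ∑ N ∈ Ioc 0 Y, ((RS x a L (N + τ i)).card : ℝ) ^ n := by
          rw [← mul_sum, sum_comm]
      _ ≤ (m : ℝ) ^ n * ∑ _i : Fin m, C * (1 + L / Real.log x) ^ n * (2 * Y) := by
          refine mul_le_mul_of_nonneg_left (sum_le_sum fun i _ => ?_) (by positivity)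
          refine (sum_translate (fun N => ((RS x a L N).card : ℝ) ^ n) (fun _ => by positivity) (τ i) Y).trans ?_
          refine (hmom (Y + τ i) (by push_cast; linarith [Nat.cast_nonneg (α := ℝ) (τ i)])).trans ?_
          refine mul_le_mul_of_nonneg_left ?_ (by positivity)
          push_cast
          linarith [hτx i]
      _ = A0 * Y := by
          rw [sum_const, card_univ, Fintype.card_fin, nsmul_eq_mul, hA0]
          ring
  refine ⟨?_, fun U hU => ?_⟩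
  · refine (Pool.Agent.H79.LS.gauss_gen x hx4 (fun N => ((SU x a L τ N).card : ℝ) ^ n) (fun _ => by positivity) A0 hA00
      hY).trans (le_of_eq ?_)
    rw [hA0, hG]
    ring
  · refine (Pool.Agent.H79.AU.gauss_tail x U hx4 hU (fun N => ((SU x a L τ N).card : ℝ) ^ n) (fun _ => by positivity)
      A0 hA00 hY).trans ?_
    refine div_le_div_of_nonneg_right ?_ (by linarith)
    have h1 : 0 ≤ A0 * x := by positivity
    calc 4 * Real.exp (9 / 2) * A0 * x ≤ G * (A0 * x) := by rw [hG]; nlinarith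
      _ = G * ((m : ℝ) ^ n * (m * (2 * C))) * (1 + L / Real.log x) ^ n * x := by rw [hA0]; ring

end Pool.Agent.H34.EU
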