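import Pool.Agent.H34.EU.Siv

/-!
# [H34 EU SIO] The sieve for configurations in translated windows, the presieve modulus does not depend on the power of the logarithm

`sieveO` from `sieveO1` by a translation of the sites, as `sieveC` of H34/EQ/Sv from `sieveB`.
-/

set_option autoImplicit false

namespace Pool.Agent.H34.EU

open Finset Filter Pool.Agent.H61.UN Pool.Agent.H34.RR Pool.Agent.H62.EX Pool.Agent.H34.EQ

open Classical in
theorem sieveO (m : ℕ) (hm : 1 ≤ m) (κ : ℕ) : ∃ s : ℕ, 1 ≤ s ∧ ∃ (wd : ℕ) (H0 : ℝ), 1 ≤ H0 ∧ ∀ A : ℕ, ∀ w : Fin m → ℝ,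
    (∀ d, 0 ≤ w d) → 100 ≤ ∑ d, w d → ∀ R : ℕ, 0 < R → primorial wd ∣ R → ∀ c : ℝ, 0 < c → ∃ δ T : ℝ, 0 < δ ∧ 1 ≤ T ∧
      ∀ᶠ x : ℝ in atTop, ∀ L : ℕ, H0 ≤ L → (L : ℝ) ≤ Real.log x ^ A → ∀ τ : Fin m → ℕ,
        (∀ i, (τ i : ℝ) ≤ Real.log x ^ A) → ∀ 𝓗 : Finset (Fin m × Fin s → ℕ),
          (∀ v ∈ 𝓗, Function.Injective v ∧ (∀ p, τ p.1 ≤ v p ∧ v p ≤ τ p.1 + L) ∧ ∀ p, Nat.Coprime (v p) R) →
          c * (L : ℝ) ^ (m * s) ≤ 𝓗.card → ∀ F : ℕ → Finset (Fin κ → ℕ),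
          (∀ N, R ∣ N → ∀ v ∈ 𝓗, 1 < wc w v N → ∃ z ∈ F N, ∀ j, ∃ p, v p = z j) →
          (∀ N, ∀ z ∈ F N, Function.Injective z ∧ ∀ j, (∃ i, τ i ≤ z j ∧ z j ≤ τ i + L) ∧ (N + z j).Prime) →
          ∀ Y : ℝ, T * x ≤ (min 1 (L / Real.log x)) ^ (m * s) * Y →
            δ * (min 1 (L / Real.log x)) ^ (2 * (m * s)) * (L / Real.log x) ^ κ * x ≤
              ∑ N ∈ range (⌊Y⌋₊ + 1), ((F N).card : ℝ) := by
  obtain ⟨s, hs, H0, hH0, hsv⟩ := sieveO1 m hm κ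
  refine ⟨s, hs, m * s, H0, hH0, fun A w hw hw100 R hR hRw c hc => ?_⟩
  obtain ⟨wd, hsv⟩ := hsv (A + 1)
  have hcard : Fintype.card (Fin m × Fin s) = m * s := by
    rw [Fintype.card_prod, Fintype.card_fin, Fintype.card_fin]
  have hRp : ∀ p : ℕ, p.Prime → p ≤ Fintype.card (Fin m × Fin s) → p ∣ R := by
    intro p hp hpc
    rw [hcard] at hpc
    refine dvd_trans ?_ hRw
    exact dvd_prod_of_mem (fun p => p) (mem_filter.2 ⟨mem_range.2 (Nat.lt_succ_iff.2 hpc), hp⟩)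
  obtain ⟨R', hR'⟩ : ∃ R' : ℕ, R' = R * primorial wd := ⟨_, rfl⟩
  have hR'0 : 0 < R' := by rw [hR']; exact Nat.mul_pos hR (primorial_pos wd)
  have hR'r : (0 : ℝ) < R' := by exact_mod_cast hR'0
  have hRR' : R ∣ R' := by rw [hR']; exact dvd_mul_right _ _
  obtain ⟨δ, T, hδ, hT, hx⟩ := hsv w hw hw100 R' hR'0 (by rw [hR']; exact dvd_mul_left _ _) (c / R') (by positivity)
  refine ⟨δ, T + 1, hδ, by linarith, ?_⟩
  filter_upwards [hx, eventually_ge_atTop (R' : ℝ), Real.tendsto_log_atTop.eventually_ge_atTop 2,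
    Real.tendsto_log_atTop.eventually_ge_atTop ((R' : ℝ) + 1)] with x hx hxR hlog hlogR
  intro L hLH hLA τ hτ 𝓗 h𝓗 h𝓗c F hF1 hF2 Y hY
  have hL0 : (0 : ℝ) < L := by linarith
  have hx0 : 0 < x := hR'r.trans_le hxR
  have hl0 : 0 < Real.log x := by linarith
  have hlA : (1 : ℝ) ≤ Real.log x ^ A := one_le_pow₀ (by linarith)
  -- the shifts
  have hsh : ∀ v : Fin m × Fin s → ℕ, ∃ b : ℕ, b < R' ∧ (v ∈ 𝓗 → R ∣ b ∧ ∀ i, Nat.Coprime (v i + b) R') := by
    intro v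
    by_cases hv : v ∈ 𝓗
    · obtain ⟨b, h1, h2, h3⟩ := shift_exists R wd hR hRp v (h𝓗 v hv).2.2
      rw [← hR'] at h1 h3
      exact ⟨b, h1, fun _ => ⟨h2, h3⟩⟩
    · exact ⟨0, hR'0, fun h => absurd h hv⟩
  choose sh hsh1 hsh2 using hsh
  obtain ⟨b, hb, hbc⟩ : ∃ b ∈ range R', (𝓗.card : ℝ) / R' ≤ ((𝓗.filter (fun v => sh v = b)).card : ℝ) := by
    refine exists_le_of_sum_le (s := range R') (f := fun _ => (𝓗.card : ℝ) / R')
      (g := fun b => ((𝓗.filter (fun v => sh v = b)).card : ℝ)) ⟨0, mem_range.2 hR'0⟩ ?_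
    rw [sum_const, card_range, nsmul_eq_mul, ← Nat.cast_sum,
      ← card_eq_sum_card_fiberwise (f := sh) (s := 𝓗) (t := range R') (fun v _ => mem_coe.2 (mem_range.2 (hsh1 v)))]
    exact le_of_eq (by field_simp)
  rw [mem_range] at hb
  have hbr : (b : ℝ) ≤ R' := by exact_mod_cast hb.le
  obtain ⟨𝓗', h𝓗'⟩ : ∃ 𝓗' : Finset (Fin m × Fin s → ℕ), 𝓗' = (𝓗.filter (fun v => sh v = b)).image (fun v i => v i + b) :=
    ⟨_, rfl⟩
  have hmem : ∀ v', v' ∈ 𝓗' → ∃ v ∈ 𝓗, sh v = b ∧ v' = fun i => v i + b := by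
    intro v' hv'
    rw [h𝓗', mem_image] at hv'
    obtain ⟨v, hv, h⟩ := hv'
    rw [mem_filter] at hv
    exact ⟨v, hv.1, hv.2, h.symm⟩
  have hcard' : 𝓗'.card = (𝓗.filter (fun v => sh v = b)).card := by
    rw [h𝓗']
    refine card_image_of_injective _ ?_
    intro v v' h
    funext i
    have := congrFun h i
    simp only at this
    omega
  have hres := hx L hLH (hLA.trans (by
      rw [pow_succ]
      nlinarith)) (fun i => τ i + b) (by
    intro i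
    push_cast
    rw [pow_succ]
    have h1 := hτ i
    nlinarith) 𝓗' (by
    intro v' hv'
    obtain ⟨v, hv, hvb, rfl⟩ := hmem v' hv'
    obtain ⟨h1, h2, h3⟩ := h𝓗 v hv
    refine ⟨fun i j hij => ?_, fun p => ?_, fun p => ?_⟩
    · apply h1
      have h3 : v i + b = v j + b := hij
      omega
    · have h4 := h2 p
      show τ p.1 + b ≤ v p + b ∧ v p + b ≤ τ p.1 + b + L
      omega
    · have h4 := (hsh2 v hv).2 p
      rw [hvb] at h4
      exact h4) (by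
    rw [hcard']
    refine le_trans ?_ hbc
    rw [div_mul_eq_mul_div]
    exact div_le_div_of_nonneg_right h𝓗c hR'r.le)
    (fun N => (F (N + b)).image (fun z j => z j + b)) (by
    intro N hN v' hv' hwc
    obtain ⟨v, hv, hvb, rfl⟩ := hmem v' hv'
    rw [wc_shift] at hwc
    have hRb : R ∣ b := by
      have := (hsh2 v hv).1
      rwa [hvb] at this
    obtain ⟨z, hz, hz2⟩ := hF1 (N + b) (dvd_add (hRR'.trans hN) hRb) v hv hwc
    refine ⟨fun j => z j + b, mem_image_of_mem _ hz, fun j => ?_⟩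
    obtain ⟨i, hi⟩ := hz2 j
    exact ⟨i, by show v i + b = z j + b; rw [hi]⟩) (by
    intro N z' hz'
    rw [mem_image] at hz'
    obtain ⟨z, hz, rfl⟩ := hz'
    obtain ⟨h1, h2⟩ := hF2 (N + b) z hz
    refine ⟨fun i j hij => h1 ?_, fun j => ⟨?_, ?_⟩⟩
    · have h3 : z i + b = z j + b := hij
      omega
    · obtain ⟨i, h3, h4⟩ := (h2 j).1
      refine ⟨i, ?_, ?_⟩
      · show τ i + b ≤ z j + b
        omega
      · show z j + b ≤ τ i + b + L
        omega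
    · have h3 := (h2 j).2
      have h4 : N + (z j + b) = N + b + z j := by omega
      show (N + (z j + b)).Prime
      rw [h4]
      exact h3) (Y - R') (by
    have h0 : 0 ≤ min 1 ((L : ℝ) / Real.log x) := le_min zero_le_one (div_nonneg hL0.le hl0.le)
    have h1 : min 1 ((L : ℝ) / Real.log x) ^ (m * s) ≤ 1 := pow_le_one₀ h0 (min_le_left _ _)
    have h2 : min 1 ((L : ℝ) / Real.log x) ^ (m * s) * R' ≤ 1 * R' := mul_le_mul_of_nonneg_right h1 hR'r.le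
    rw [mul_sub]
    linarith)
  have hY0 : (R' : ℝ) ≤ Y := by
    have h0 : 0 ≤ min 1 ((L : ℝ) / Real.log x) := le_min zero_le_one (div_nonneg hL0.le hl0.le)
    have h1 : min 1 ((L : ℝ) / Real.log x) ^ (m * s) ≤ 1 := pow_le_one₀ h0 (min_le_left _ _)
    have h3 : (R' : ℝ) ≤ min 1 ((L : ℝ) / Real.log x) ^ (m * s) * Y := by nlinarith
    rcases le_or_gt Y 0 with h | h
    · have := mul_nonpos_of_nonneg_of_nonpos (pow_nonneg h0 (m * s)) h
      linarith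
    · have := mul_le_mul_of_nonneg_right h1 h.le
      linarith
  refine hres.trans ?_
  calc ∑ N ∈ range (⌊Y - R'⌋₊ + 1), ((((F (N + b)).image (fun z j => z j + b)) : Finset (Fin κ → ℕ)).card : ℝ)
      ≤ ∑ N ∈ range (⌊Y - R'⌋₊ + 1), ((F (N + b)).card : ℝ) := sum_le_sum fun N _ => Nat.cast_le.2 card_image_le
    _ = ∑ N ∈ (range (⌊Y - R'⌋₊ + 1)).image (fun N => N + b), ((F N).card : ℝ) := by
        rw [sum_image]
        intro N _ N' _ h
        have h3 : N + b = N' + b := h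
        omega
    _ ≤ ∑ N ∈ range (⌊Y⌋₊ + 1), ((F N).card : ℝ) := by
        refine sum_le_sum_of_subset_of_nonneg ?_ (fun _ _ _ => Nat.cast_nonneg _)
        intro N hN
        rw [mem_image] at hN
        obtain ⟨N', hN', rfl⟩ := hN
        rw [mem_range, Nat.lt_succ_iff] at hN' ⊢
        have h1 : (N' : ℝ) ≤ Y - R' := (Nat.le_floor_iff (by linarith)).1 hN'
        refine Nat.le_floor ?_
        push_cast
        linarith

end Pool.Agent.H34.EU
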