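import Pool.Agent.H34.EU.Mom
import Pool.Agent.H34.RC.Mq

/-!
# [H34 EU SIV] The sieve for configurations in translated windows

`sieveO1`: many patterns for every dense set of configurations with sites in the windows `[τ i, τ i + L]`, the `τ i` up to a power of the
logarithm, `L` bounded below only by a constant depending on `m`.  `sieveO`: the presieve modulus does not depend on the power.
-/

set_option autoImplicit false

namespace Pool.Agent.H34.EU

open Finset Filter Pool.Agent.H21.MT Pool.Agent.H92.MM Pool.Agent.H61.UN Pool.Agent.H96.WP Pool.Agent.H34.RR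
open Pool.Agent.H34.RC Pool.Agent.H62.EX

open Classical in
/-- families with given values at given places -/
private theorem card_fib {ι : Type} [Fintype ι] {κ : ℕ} (B : Finset (ι → ℕ)) (S : Finset ℕ)
    (F : Finset (Fin κ → ℕ)) (hB : ∀ v ∈ B, (∀ i, v i ∈ S) ∧ ∃ z ∈ F, ∃ σ : Fin κ → ι,
      Function.Injective σ ∧ ∀ j, v (σ j) = z j) :
    B.card ≤ F.card * (Fintype.card ι ^ κ * S.card ^ (Fintype.card ι - κ)) := by
  obtain ⟨t, ht⟩ : ∃ t : (Fin κ → ℕ) × (Fin κ → ι) → ι → Finset ℕ, t = fun p i =>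
    if h : ∃ j, p.2 j = i then {p.1 h.choose} else S := ⟨_, rfl⟩
  have h1 : B ⊆ (F ×ˢ (univ : Finset (Fin κ → ι)).filter Function.Injective).biUnion
      (fun p => Fintype.piFinset (t p)) := by
    intro v hv
    obtain ⟨hv1, z, hz, σ, hσ, hσz⟩ := hB v hv
    rw [mem_biUnion]
    refine ⟨(z, σ), mem_product.2 ⟨hz, mem_filter.2 ⟨mem_univ _, hσ⟩⟩, ?_⟩
    rw [Fintype.mem_piFinset]
    intro i
    rw [ht]
    dsimp only
    split_ifs with h
    · rw [mem_singleton]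
      have := h.choose_spec
      rw [← hσz, this]
    · exact hv1 i
  refine (card_le_card h1).trans (card_biUnion_le.trans ?_)
  have h2 : ∀ p ∈ F ×ˢ (univ : Finset (Fin κ → ι)).filter Function.Injective,
      (Fintype.piFinset (t p)).card = S.card ^ (Fintype.card ι - κ) := by
    intro p hp
    have hp2 : Function.Injective p.2 := (mem_filter.1 (mem_product.1 hp).2).2
    rw [Fintype.card_piFinset]
    have h3 : ∀ i, (t p i).card = if (∃ j, p.2 j = i) then 1 else S.card := by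
      intro i
      rw [ht]
      dsimp only
      split_ifs
      · exact card_singleton _
      · rfl
    rw [prod_congr rfl (fun i _ => h3 i), prod_ite, prod_const_one, one_mul, prod_const]
    congr 1
    have h4 : (univ.filter (fun i => ¬ ∃ j, p.2 j = i)) = univ \ univ.image p.2 := by
      ext i
      simp
    rw [h4, card_sdiff_of_subset (subset_univ _), card_univ, card_image_of_injective _ hp2, card_univ, Fintype.card_fin]
  rw [sum_congr rfl h2, sum_const, smul_eq_mul, card_product, mul_assoc]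
  refine Nat.mul_le_mul_left _ (Nat.mul_le_mul_right _ ?_)
  refine (card_le_univ _).trans (le_of_eq ?_)
  rw [Fintype.card_fun, Fintype.card_fin]

/-- powers -/
private theorem pow_ineq (t : ℝ) (ht : 0 < t) (n κ : ℕ) (hκ : κ ≤ n) :
    (min 1 t) ^ (2 * n) * t ^ κ * (1 + t) ^ (2 * n - κ) ≤ 2 ^ (2 * n) * t ^ (2 * n) := by
  obtain ⟨M, hM⟩ : ∃ M : ℝ, M = max 1 t := ⟨_, rfl⟩
  have hM1 : 1 ≤ M := by rw [hM]; exact le_max_left _ _
  have hMt : t ≤ M := by rw [hM]; exact le_max_right _ _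
  have h0 : 0 < min 1 t := lt_min one_pos ht
  have h1 : min 1 t * M = t := by
    rw [hM]
    rcases le_total 1 t with h | h
    · rw [min_eq_left h, max_eq_right h, one_mul]
    · rw [min_eq_right h, max_eq_left h, mul_one]
  have h2 : (1 + t) ^ (2 * n - κ) ≤ (2 * M) ^ (2 * n - κ) :=
    pow_le_pow_left₀ (by linarith) (by linarith) _
  have h3 : t ^ κ ≤ M ^ κ := pow_le_pow_left₀ ht.le hMt _
  calc (min 1 t) ^ (2 * n) * t ^ κ * (1 + t) ^ (2 * n - κ)
      ≤ (min 1 t) ^ (2 * n) * M ^ κ * (2 * M) ^ (2 * n - κ) := by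
        refine mul_le_mul (mul_le_mul_of_nonneg_left h3 (by positivity)) h2 (by positivity) (by positivity)
    _ = (min 1 t) ^ (2 * n) * (M ^ κ * M ^ (2 * n - κ)) * 2 ^ (2 * n - κ) := by
        rw [mul_pow]
        ring
    _ = (min 1 t * M) ^ (2 * n) * 2 ^ (2 * n - κ) := by
        rw [← pow_add, mul_pow]
        congr 3
        omega
    _ ≤ 2 ^ (2 * n) * t ^ (2 * n) := by
        rw [h1, mul_comm]
        refine mul_le_mul_of_nonneg_right ?_ (by positivity)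
        exact pow_le_pow_right₀ (by norm_num) (by omega)


/-- the tail -/
private theorem tail_ineq (t : ℝ) (ht : 0 < t) (n : ℕ) : (1 + t) ^ n * (min 1 t) ^ n ≤ 2 ^ n * t ^ n := by
  rw [← mul_pow, ← mul_pow]
  refine pow_le_pow_left₀ (mul_nonneg (by linarith) (le_min zero_le_one ht.le)) ?_ n
  rcases le_total 1 t with h | h
  · rw [min_eq_left h]
    linarith
  · rw [min_eq_right h]
    nlinarith

open Classical in
theorem sieveO1 (m : ℕ) (hm : 1 ≤ m) (κ : ℕ) : ∃ s : ℕ, 1 ≤ s ∧ ∃ H0 : ℝ, 1 ≤ H0 ∧ ∀ A : ℕ, ∃ wd : ℕ, ∀ w : Fin m → ℝ,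
    (∀ d, 0 ≤ w d) → 100 ≤ ∑ d, w d → ∀ R : ℕ, 0 < R → primorial wd ∣ R → ∀ c : ℝ, 0 < c → ∃ δ T : ℝ, 0 < δ ∧ 1 ≤ T ∧
      ∀ᶠ x : ℝ in atTop, ∀ L : ℕ, H0 ≤ L → (L : ℝ) ≤ Real.log x ^ A → ∀ τ : Fin m → ℕ,
        (∀ i, (τ i : ℝ) ≤ Real.log x ^ A) → ∀ 𝓗 : Finset (Fin m × Fin s → ℕ),
          (∀ v ∈ 𝓗, Function.Injective v ∧ (∀ p, τ p.1 ≤ v p ∧ v p ≤ τ p.1 + L) ∧ ∀ p, Nat.Coprime (v p) R) →
          c * (L : ℝ) ^ (m * s) ≤ 𝓗.card → ∀ F : ℕ → Finset (Fin κ → ℕ),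
          (∀ N, R ∣ N → ∀ v ∈ 𝓗, 1 < wc w v N → ∃ z ∈ F N, ∀ j, ∃ p, v p = z j) →
          (∀ N, ∀ z ∈ F N, Function.Injective z ∧ ∀ j, (∃ i, τ i ≤ z j ∧ z j ≤ τ i + L) ∧ (N + z j).Prime) →
          ∀ Y : ℝ, T * x ≤ (min 1 (L / Real.log x)) ^ (m * s) * Y →
            δ * (min 1 (L / Real.log x)) ^ (2 * (m * s)) * (L / Real.log x) ^ κ * x ≤
              ∑ N ∈ range (⌊Y⌋₊ + 1), ((F N).card : ℝ) := by
  obtain ⟨s, a, hs, ha, ha1, hob⟩ := box_class2 m hm
  have hcard : Fintype.card (Fin m × Fin s) = m * s := by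
    rw [Fintype.card_prod, Fintype.card_fin, Fintype.card_fin]
  obtain ⟨Ct, Ht, hCt, hHt, htail⟩ := momU m (m * s) hm a ha
  obtain ⟨Cm, Hm, hCm, hHm, hmom⟩ := momU m (2 * (m * s) - κ) hm a ha
  refine ⟨s, hs, max Ht Hm, hHt.trans (le_max_left _ _), fun A => ?_⟩
  obtain ⟨wd, hob⟩ := hob (A + 1)
  refine ⟨wd, fun w hw hw100 R hR hRw c hc => ?_⟩
  obtain ⟨c0, hc0, hob⟩ := hob w hw hw100 R hR hRw
  have htail := htail A
  have hmom := hmom A
  obtain ⟨n, hn⟩ : ∃ n : ℕ, n = m * s := ⟨_, rfl⟩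
  rw [← hn] at hcard htail hmom hob
  have hn1 : 1 ≤ n := by rw [hn]; exact Nat.mul_pos hm hs
  have hn0 : (0 : ℝ) < n := by exact_mod_cast hn1
  -- constants
  have hT1 : (1 : ℝ) ≤ max 1 (2 * Ct * 2 ^ n / (c0 * c)) := le_max_left _ _
  have hT2 : 2 * Ct * 2 ^ n / (c0 * c) ≤ max 1 (2 * Ct * 2 ^ n / (c0 * c)) := le_max_right _ _
  generalize max 1 (2 * Ct * 2 ^ n / (c0 * c)) = T at hT1 hT2
  have hT0 : 0 < T := by linarith
  refine ⟨(c0 * c / 2) ^ 2 / ((n : ℝ) ^ (2 * κ) * Cm * 2 ^ (2 * n)), T, by positivity, hT1, ?_⟩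
  have hlogt := Real.tendsto_log_atTop
  filter_upwards [hob, htail, hmom, eventually_ge_atTop (4 : ℝ), hlogt.eventually_ge_atTop 2] with x hob htail hmom hx4 hlog2
  intro L hLH0 hLA τ hτ 𝓗 h𝓗 h𝓗c F hF1 hF2 Y0 hY0
  have hx0 : 0 < x := by linarith
  have hlog : 0 < Real.log x := by linarith
  have hLt : Ht ≤ L := (le_max_left _ _).trans hLH0
  have hLm : Hm ≤ L := (le_max_right _ _).trans hLH0
  have hL0 : (0 : ℝ) < L := by linarith
  have htail := (htail L hLt τ hτ).2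
  have hmom := (hmom L hLm τ hτ).1
  obtain ⟨t, ht⟩ : ∃ t : ℝ, t = L / Real.log x := ⟨_, rfl⟩
  have ht0 : 0 < t := by rw [ht]; positivity
  rw [← ht] at hmom htail hY0 ⊢
  rw [← hn] at h𝓗c hY0 ⊢
  obtain ⟨Y, hY⟩ : ∃ Y : ℝ, Y = t ^ n * x := ⟨_, rfl⟩
  have hYp : 0 < Y := by rw [hY]; positivity
  have hYL : Y = (L : ℝ) ^ n * (x / Real.log x ^ n) := by
    rw [hY, ht, div_pow]
    ring
  -- the range
  obtain ⟨U, hU⟩ : ∃ U : ℝ, U = Y0 / x := ⟨_, rfl⟩
  have hYU : Y0 = U * x := by rw [hU]; field_simp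
  have hmn0 : 0 < (min 1 t) ^ n := pow_pos (lt_min one_pos ht0) n
  have hmn1 : (min 1 t) ^ n ≤ 1 := pow_le_one₀ (le_min zero_le_one ht0.le) (min_le_left _ _)
  have hTU : T ≤ (min 1 t) ^ n * U := by
    rw [hYU, ← mul_assoc] at hY0
    exact le_of_mul_le_mul_right hY0 hx0
  have hU0 : 0 < U := by
    by_contra hcon
    have := mul_nonpos_of_nonneg_of_nonpos hmn0.le (not_lt.1 hcon)
    linarith
  have hU1 : 1 ≤ U := by
    have : (min 1 t) ^ n * U ≤ 1 * U := mul_le_mul_of_nonneg_right hmn1 hU0.le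
    linarith
  have htail := htail U hU1
  rw [hYU]
  -- the long window
  have hl1 : (1 : ℝ) ≤ Real.log x ^ (A + 1) := one_le_pow₀ (by linarith)
  obtain ⟨L', hL'⟩ : ∃ L' : ℕ, L' = ⌊Real.log x ^ (A + 1)⌋₊ := ⟨_, rfl⟩
  have hL'1 : 1 ≤ L' := by rw [hL']; exact Nat.le_floor (by push_cast; exact hl1)
  have hL'2 : (L' : ℝ) ≤ Real.log x ^ (A + 1) := by rw [hL']; exact Nat.floor_le (by linarith)
  have hvL' : ∀ v ∈ 𝓗, v ∈ IJ (Fin m × Fin s) L' := by
    intro v hv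
    obtain ⟨h1, h2, -⟩ := h𝓗 v hv
    refine mem_IJ.2 ⟨fun p => ?_, h1⟩
    rw [hL']
    refine Nat.le_floor ?_
    have h3 : (v p : ℝ) ≤ τ p.1 + L := by exact_mod_cast (h2 p).2
    have h4 := hτ p.1
    rw [pow_succ]
    have h5 : 0 ≤ Real.log x ^ A := by positivity
    nlinarith
  have hob := hob L' hL'1 hL'2
  -- the two kinds of pairs
  obtain ⟨P1, hP1⟩ : ∃ P1 : (Fin m × Fin s → ℕ) → ℕ → Prop, P1 = fun (u : Fin m × Fin s → ℕ) (N : ℕ) =>
    U * x < (N : ℝ) ∧ ∀ i, Rgh (x ^ a) (N + u i) := ⟨_, rfl⟩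
  obtain ⟨P3, hP3⟩ : ∃ P3 : (Fin m × Fin s → ℕ) → ℕ → Prop, P3 = fun (u : Fin m × Fin s → ℕ) (N : ℕ) =>
    (N : ℝ) ≤ U * x ∧ R ∣ N ∧ (∀ i, Rgh (x ^ a) (N + u i)) ∧ 1 < wc w u N := ⟨_, rfl⟩
  have key : ∀ u ∈ 𝓗, c0 * x / Real.log x ^ n ≤
      ∑ N ∈ (Tx x).filter (P1 u), gw x N + ∑ N ∈ (Tx x).filter (P3 u), gw x N := by
    intro u hu
    refine (hob u (hvL' u hu) (h𝓗 u hu).2.2).trans ?_
    rw [sum_filter, sum_filter, sum_filter, ← sum_add_distrib]
    refine sum_le_sum fun N _ => ?_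
    have hg := (gw_pos x N).le
    by_cases hE : R ∣ N ∧ (∀ i, Rgh (x ^ a) (N + u i)) ∧ 1 < wc w u N
    · rw [if_pos hE]
      have hE2 := hE.2.1
      have q1 : (0 : ℝ) ≤ if P1 u N then gw x N else 0 := by split_ifs <;> linarith
      have q3 : (0 : ℝ) ≤ if P3 u N then gw x N else 0 := by split_ifs <;> linarith
      by_cases h1 : P1 u N
      · rw [if_pos h1]
        linarith
      · have h3 : P3 u N := by
          rw [hP3]
          refine ⟨?_, hE.1, hE2, hE.2.2⟩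
          by_contra hc
          apply h1
          rw [hP1]
          exact ⟨lt_of_not_ge hc, hE2⟩
        rw [if_pos h3]
        linarith
    · rw [if_neg hE]
      have : (0 : ℝ) ≤ if P1 u N then gw x N else 0 := by split_ifs <;> linarith
      have : (0 : ℝ) ≤ if P3 u N then gw x N else 0 := by split_ifs <;> linarith
      linarith
  have hS0 : c0 * c * Y ≤ ∑ u ∈ 𝓗, (∑ N ∈ (Tx x).filter (P1 u), gw x N +
      ∑ N ∈ (Tx x).filter (P3 u), gw x N) := by
    have h1 : ∑ u ∈ 𝓗, c0 * x / Real.log x ^ n ≤ _ := sum_le_sum key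
    rw [sum_const, nsmul_eq_mul] at h1
    refine le_trans ?_ h1
    have h2 : 0 ≤ c0 * x / Real.log x ^ n := by positivity
    refine le_trans (le_of_eq ?_) (mul_le_mul_of_nonneg_right h𝓗c h2)
    rw [hYL]
    ring
  rw [sum_add_distrib, main_swap, main_swap] at hS0
  -- far part
  have hsu : ∀ N, ∀ B : Finset (Fin m × Fin s → ℕ), (∀ v ∈ B, ∀ p, v p ∈ SU x a L τ N) →
      (B.card : ℝ) ≤ ((SU x a L τ N).card : ℝ) ^ n := by
    intro N B hB
    have h4 : B ⊆ Fintype.piFinset (fun _ : Fin m × Fin s => SU x a L τ N) := by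
      intro v hv
      rw [Fintype.mem_piFinset]
      exact hB v hv
    have h6 := card_le_card h4
    rw [Fintype.card_piFinset, prod_const, card_univ, hcard] at h6
    exact_mod_cast h6
  have hF1' : ∑ N ∈ Tx x, gw x N * ((𝓗.filter (fun u => P1 u N)).card : ℝ) ≤ c0 * c / 2 * Y := by
    have h1 : ∑ N ∈ Tx x, gw x N * ((𝓗.filter (fun u => P1 u N)).card : ℝ) ≤
        ∑ N ∈ (Tx x).filter (fun N : ℕ => U * x < (N : ℝ)), gw x N * ((SU x a L τ N).card : ℝ) ^ n := by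
      rw [sum_filter]
      refine sum_le_sum fun N _ => ?_
      by_cases hN : U * x < (N : ℝ)
      · rw [if_pos hN]
        refine mul_le_mul_of_nonneg_left ?_ (gw_pos x N).le
        refine hsu N _ fun v hv p => ?_
        rw [mem_filter, hP1] at hv
        obtain ⟨h2, h3, h4⟩ := hv
        have h5 := (h𝓗 v h2).2.1 p
        exact mem_SU.2 ⟨p.1, h5.1, h5.2, h4 p⟩
      · rw [if_neg hN]
        have : 𝓗.filter (fun u => P1 u N) = ∅ := by
          rw [filter_eq_empty_iff]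
          intro u _ hu
          rw [hP1] at hu
          exact hN hu.1
        rw [this, card_empty, Nat.cast_zero, mul_zero]
    refine h1.trans (htail.trans ?_)
    have h2 : Ct * 2 ^ n ≤ c0 * c / 2 * T := by
      rw [div_le_iff₀ (by positivity)] at hT2
      linarith
    rw [div_le_iff₀ hU0]
    refine le_of_mul_le_mul_left ?_ hmn0
    calc (min 1 t) ^ n * (Ct * (1 + t) ^ n * x) = Ct * x * ((1 + t) ^ n * (min 1 t) ^ n) := by ring
      _ ≤ Ct * x * (2 ^ n * t ^ n) := mul_le_mul_of_nonneg_left (tail_ineq t ht0 n) (by positivity)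
      _ = Ct * 2 ^ n * Y := by rw [hY]; ring
      _ ≤ c0 * c / 2 * T * Y := mul_le_mul_of_nonneg_right h2 hYp.le
      _ ≤ c0 * c / 2 * ((min 1 t) ^ n * U) * Y := by
          refine mul_le_mul_of_nonneg_right (mul_le_mul_of_nonneg_left hTU (by positivity)) hYp.le
      _ = (min 1 t) ^ n * (c0 * c / 2 * Y * U) := by ring
  have hmain : c0 * c / 2 * Y ≤ ∑ N ∈ Tx x, gw x N * ((𝓗.filter (fun u => P3 u N)).card : ℝ) := by
    linarith
  -- the pattern in a configuration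
  have hpat : ∀ N ∈ Tx x, ∀ u ∈ 𝓗.filter (fun u => P3 u N), (∀ i, u i ∈ SU x a L τ N) ∧
      ∃ z ∈ F N, ∃ σ : Fin κ → Fin m × Fin s, Function.Injective σ ∧ ∀ j, u (σ j) = z j := by
    intro N _ u hu
    rw [mem_filter, hP3] at hu
    obtain ⟨hu0, -, hu1, hu2, hu3⟩ := hu
    refine ⟨fun p => ?_, ?_⟩
    · have h5 := (h𝓗 u hu0).2.1 p
      exact mem_SU.2 ⟨p.1, h5.1, h5.2, hu2 p⟩
    obtain ⟨z, hz, hz1⟩ := hF1 N hu1 u hu0 hu3
    choose σ hσ using hz1
    refine ⟨z, hz, σ, fun j j' hjj => ?_, hσ⟩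
    apply (hF2 N z hz).1
    rw [← hσ j, ← hσ j', hjj]
  -- the number of patterns
  obtain ⟨SF, hSF⟩ : ∃ SF : ℝ, SF = ∑ N ∈ range (⌊U * x⌋₊ + 1), ((F N).card : ℝ) := ⟨_, rfl⟩
  rw [← hSF]
  have hSF0 : 0 ≤ SF := by
    rw [hSF]
    exact sum_nonneg fun N _ => Nat.cast_nonneg _
  have hκn : κ ≤ n := by
    by_contra hcon
    have h1 : ∑ N ∈ Tx x, gw x N * ((𝓗.filter (fun u => P3 u N)).card : ℝ) = 0 := by
      refine sum_eq_zero fun N hN => ?_
      have h2 : 𝓗.filter (fun u => P3 u N) = ∅ := by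
        by_contra h3
        obtain ⟨u, hu⟩ := nonempty_iff_ne_empty.2 h3
        obtain ⟨-, z, -, σ, hσ, -⟩ := hpat N hN u hu
        have h4 := Fintype.card_le_of_injective σ hσ
        rw [Fintype.card_fin, hcard] at h4
        exact hcon h4
      rw [h2, card_empty, Nat.cast_zero, mul_zero]
    rw [h1] at hmain
    have : 0 < c0 * c / 2 * Y := by positivity
    linarith
  obtain ⟨ρ, hρ⟩ : ∃ ρ : ℕ → ℝ, ρ = fun N => ((SU x a L τ N).card : ℝ) := ⟨_, rfl⟩
  have hρ0 : ∀ N, 0 ≤ ρ N := by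
    intro N
    rw [hρ]
    exact Nat.cast_nonneg _
  obtain ⟨G, hG⟩ : ∃ G : ℕ → ℝ, G = fun N : ℕ => if (N : ℝ) ≤ U * x then ((F N).card : ℝ) else 0 := ⟨_, rfl⟩
  have hG0 : ∀ N, 0 ≤ G N := by
    intro N
    rw [hG]
    dsimp only
    split_ifs
    · exact Nat.cast_nonneg _
    · exact le_refl _
  have hb1 : ∀ N ∈ Tx x, gw x N * ((𝓗.filter (fun u => P3 u N)).card : ℝ) ≤
      (n : ℝ) ^ κ * (gw x N * G N * ρ N ^ (n - κ)) := by
    intro N hN
    have h1 := card_fib (𝓗.filter (fun u => P3 u N)) (SU x a L τ N) (F N) (hpat N hN)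
    rw [hcard] at h1
    have h2 : ((𝓗.filter (fun u => P3 u N)).card : ℝ) ≤ ((F N).card : ℝ) * ((n : ℝ) ^ κ * ρ N ^ (n - κ)) := by
      have hρN : ρ N = ((SU x a L τ N).card : ℝ) := by rw [hρ]
      rw [hρN]
      exact_mod_cast h1
    by_cases hNT : (N : ℝ) ≤ U * x
    · have h3 : G N = ((F N).card : ℝ) := by
        rw [hG]
        dsimp only
        rw [if_pos hNT]
      rw [h3]
      refine (mul_le_mul_of_nonneg_left h2 (gw_pos x N).le).trans (le_of_eq ?_)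
      ring
    · have h3 : 𝓗.filter (fun u => P3 u N) = ∅ := by
        rw [filter_eq_empty_iff]
        intro u _ hu
        rw [hP3] at hu
        exact hNT hu.1
      rw [h3, card_empty, Nat.cast_zero, mul_zero]
      have := hG0 N
      have := hρ0 N
      have := (gw_pos x N).le
      positivity
  have hb2 : ∀ N ∈ Tx x, G N ≤ ρ N ^ κ := by
    intro N hN
    by_cases hNT : (N : ℝ) ≤ U * x
    · have h3 : G N = ((F N).card : ℝ) := by
        rw [hG]
        dsimp only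
        rw [if_pos hNT]
      rw [h3]
      have h4 : F N ⊆ Fintype.piFinset (fun _ : Fin κ => SU x a L τ N) := by
        intro z hz
        rw [Fintype.mem_piFinset]
        intro j
        obtain ⟨⟨i, h5, h6⟩, h7⟩ := (hF2 N z hz).2 j
        exact mem_SU.2 ⟨i, h5, h6, main_rough (by linarith) ha1 hN h7⟩
      have h6 := card_le_card h4
      rw [Fintype.card_piFinset, prod_const, card_univ, Fintype.card_fin] at h6
      have hρN : ρ N = ((SU x a L τ N).card : ℝ) := by rw [hρ]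
      rw [hρN]
      exact_mod_cast h6
    · have h3 : G N = 0 := by
        rw [hG]
        dsimp only
        rw [if_neg hNT]
      rw [h3]
      exact pow_nonneg (hρ0 N) _
  -- Cauchy-Schwarz
  have hcs : (∑ N ∈ Tx x, gw x N * G N * ρ N ^ (n - κ)) ^ 2 ≤
      (∑ N ∈ Tx x, gw x N * G N) * ∑ N ∈ Tx x, gw x N * G N * ρ N ^ (2 * (n - κ)) := by
    refine sum_sq_le_sum_mul_sum_of_sq_le_mul _ (fun N _ => ?_) (fun N _ => ?_) (fun N _ => le_of_eq ?_)
    · exact mul_nonneg (gw_pos x N).le (hG0 N)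
    · exact mul_nonneg (mul_nonneg (gw_pos x N).le (hG0 N)) (pow_nonneg (hρ0 N) _)
    · rw [pow_mul']
      ring
  have hA1 : ∑ N ∈ Tx x, gw x N * G N ≤ SF := by
    calc ∑ N ∈ Tx x, gw x N * G N ≤ ∑ N ∈ Tx x, G N :=
          sum_le_sum fun N _ => mul_le_of_le_one_left (hG0 N) (gw_le_one x N)
      _ = ∑ N ∈ (Tx x).filter (fun N : ℕ => (N : ℝ) ≤ U * x), ((F N).card : ℝ) := by
          rw [sum_filter, hG]
      _ ≤ SF := by
          rw [hSF]
          refine sum_le_sum_of_subset_of_nonneg (fun N hN => ?_) fun _ _ _ => Nat.cast_nonneg _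
          rw [mem_range, Nat.lt_succ_iff]
          exact Nat.le_floor (mem_filter.1 hN).2
  have hA2 : ∑ N ∈ Tx x, gw x N * G N * ρ N ^ (2 * (n - κ)) ≤ Cm * (1 + t) ^ (2 * n - κ) * x := by
    refine le_trans (sum_le_sum fun N hN => ?_) hmom
    have h1 : gw x N * G N * ρ N ^ (2 * (n - κ)) ≤ gw x N * ρ N ^ κ * ρ N ^ (2 * (n - κ)) :=
      mul_le_mul_of_nonneg_right (mul_le_mul_of_nonneg_left (hb2 N hN) (gw_pos x N).le) (pow_nonneg (hρ0 N) _)
    refine h1.trans (le_of_eq ?_)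
    rw [mul_assoc, ← pow_add, show κ + 2 * (n - κ) = 2 * n - κ by omega, hρ]
  have hfin : (c0 * c / 2 * Y) ^ 2 ≤ (n : ℝ) ^ (2 * κ) * (SF * (Cm * (1 + t) ^ (2 * n - κ) * x)) := by
    have h1 : c0 * c / 2 * Y ≤ (n : ℝ) ^ κ * ∑ N ∈ Tx x, gw x N * G N * ρ N ^ (n - κ) := by
      refine hmain.trans ((sum_le_sum hb1).trans (le_of_eq ?_))
      rw [mul_sum]
    have h2 : 0 ≤ c0 * c / 2 * Y := by positivity
    refine (pow_le_pow_left₀ h2 h1 2).trans ?_
    rw [mul_pow, ← pow_mul, mul_comm κ 2]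
    refine mul_le_mul_of_nonneg_left (hcs.trans ?_) (by positivity)
    refine mul_le_mul hA1 hA2 ?_ hSF0
    exact sum_nonneg fun N _ => mul_nonneg (mul_nonneg (gw_pos x N).le (hG0 N)) (pow_nonneg (hρ0 N) _)
  have hpi := pow_ineq t ht0 n κ hκn
  obtain ⟨D, hD⟩ : ∃ D : ℝ, D = (n : ℝ) ^ (2 * κ) * (Cm * (1 + t) ^ (2 * n - κ) * x) := ⟨_, rfl⟩
  have hD0 : 0 < D := by rw [hD]; positivity
  refine le_of_mul_le_mul_right ?_ hD0
  calc (c0 * c / 2) ^ 2 / ((n : ℝ) ^ (2 * κ) * Cm * 2 ^ (2 * n)) * min 1 t ^ (2 * n) * t ^ κ * x * D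
      = (c0 * c / 2) ^ 2 * x ^ 2 * ((min 1 t) ^ (2 * n) * t ^ κ * (1 + t) ^ (2 * n - κ)) / 2 ^ (2 * n) := by
        rw [hD]
        field_simp
    _ ≤ (c0 * c / 2) ^ 2 * x ^ 2 * (2 ^ (2 * n) * t ^ (2 * n)) / 2 ^ (2 * n) := by
        refine div_le_div_of_nonneg_right (mul_le_mul_of_nonneg_left hpi (by positivity)) (by positivity)
    _ = (c0 * c / 2 * Y) ^ 2 := by
        rw [hY, mul_pow, mul_pow, ← pow_mul, mul_comm n 2]
        field_simp
    _ ≤ SF * D := by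
        rw [hD]
        refine hfin.trans (le_of_eq ?_)
        ring

end Pool.Agent.H34.EU
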